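import Pool.Agent.TH429.GI.Rec

/-!
# The expansion in the basis `X ^ i (1 + X) ^ (n - 2 i)`
-/

set_option autoImplicit false

namespace Pool.Agent.TH429.GI

open Finset Polynomial

theorem C2 : (C (2 : ℚ) : ℚ[X]) = 2 := map_ofNat C 2

theorem C4 : (C (4 : ℚ) : ℚ[X]) = 4 := map_ofNat C 4

/-- The shift. -/
def sh (G : ℕ → ℚ) : ℕ → ℚ
  | 0 => 0
  | i + 1 => G i

/-- The effect of `TT (n + 1)` on the coefficients. -/
def ta (n : ℕ) (G : ℕ → ℚ) (i : ℕ) : ℚ :=
  (2 * (i : ℚ) + 1) * G i + 4 * ((n : ℚ) + 2 - 2 * (i : ℚ)) * sh G i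

/-- The effect of the multiplication by `(1 - X) ^ 2` on the coefficients. -/
def om (G : ℕ → ℚ) (i : ℕ) : ℚ := G i - 4 * sh G i

/-- The coefficients. -/
def Gm : ℕ → ℕ → ℚ
  | 0 => fun i => if i = 0 then 1 else 0
  | 1 => fun i => if i = 0 then 1 else 0
  | (n + 2) => fun i => (2 * ta (n + 1) (Gm (n + 1)) i + ta (n + 1) (ta n (Gm n)) i +
      (2 * (n : ℚ) + 1) * om (Gm n) i) / (2 * (n : ℚ) + 4)

/-- The basis. -/
noncomputable def bb (n i : ℕ) : ℚ[X] := if 2 * i ≤ n then X ^ i * (1 + X) ^ (n - 2 * i) else 0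

/-- The linear combination. -/
noncomputable def Sm (N n : ℕ) (G : ℕ → ℚ) : ℚ[X] := ∑ i ∈ Finset.range N, C (G i) * bb n i

theorem bb_zero {n i : ℕ} (h : n < 2 * i) : bb n i = 0 := by
  unfold bb
  rw [if_neg (by omega)]

theorem TT_bb {n i : ℕ} (h : 2 * i ≤ n) :
    TT (n + 1) (bb n i) = C (2 * (i : ℚ) + 1) * bb (n + 1) i +
      C (4 * ((n : ℚ) - 2 * (i : ℚ))) * bb (n + 1) (i + 1) := by
  obtain ⟨j, rfl⟩ := Nat.exists_eq_add_of_le h
  have hX : ∀ i : ℕ, X * derivative ((X : ℚ[X]) ^ i) = (i : ℚ[X]) * X ^ i := by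
    intro i
    cases i with
    | zero => simp
    | succ i =>
      rw [derivative_X_pow]
      simp only [Nat.add_sub_cancel]
      rw [pow_succ]
      simp only [map_natCast]
      ring
  cases j with
  | zero =>
    unfold bb TT
    rw [if_pos (by omega), if_pos (by omega), if_neg (by omega)]
    have e1 : 2 * i + 0 - 2 * i = 0 := by omega
    have e2 : 2 * i + 0 + 1 - 2 * i = 1 := by omega
    rw [e1, e2, pow_zero, mul_one, mul_zero, add_zero, pow_one]
    have h1 := hX i
    simp only [map_add, map_mul, map_natCast, map_one, map_ofNat]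
    push_cast
    linear_combination (2 * (1 - X)) * h1
  | succ j =>
    unfold bb TT
    rw [if_pos (by omega), if_pos (by omega), if_pos (by omega)]
    have e1 : 2 * i + (j + 1) - 2 * i = j + 1 := by omega
    have e2 : 2 * i + (j + 1) + 1 - 2 * i = j + 2 := by omega
    have e3 : 2 * i + (j + 1) + 1 - 2 * (i + 1) = j := by omega
    rw [e1, e2, e3, derivative_mul]
    have h1 := hX i
    have h2 : derivative ((1 + X : ℚ[X]) ^ (j + 1)) = ((j : ℚ[X]) + 1) * (1 + X) ^ j := by
      rw [derivative_pow]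
      simp
    rw [h2]
    simp only [map_add, map_mul, map_sub, map_natCast, map_one, map_ofNat]
    push_cast
    have e4 : (1 + X : ℚ[X]) ^ (j + 1) = (1 + X) ^ j * (1 + X) := pow_succ _ _
    have e5 : (1 + X : ℚ[X]) ^ (j + 2) = (1 + X) ^ j * (1 + X) ^ 2 := pow_add _ _ _
    rw [e4, e5, pow_succ X i]
    linear_combination (2 * (1 - X) * (1 + X) ^ j * (1 + X)) * h1

theorem om_bb {n i : ℕ} (h : 2 * i ≤ n) :
    (1 - X) ^ 2 * bb n i = bb (n + 2) i - 4 * bb (n + 2) (i + 1) := by
  obtain ⟨j, rfl⟩ := Nat.exists_eq_add_of_le h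
  unfold bb
  rw [if_pos (by omega), if_pos (by omega), if_pos (by omega)]
  have e1 : 2 * i + j - 2 * i = j := by omega
  have e2 : 2 * i + j + 2 - 2 * i = j + 2 := by omega
  have e3 : 2 * i + j + 2 - 2 * (i + 1) = j := by omega
  rw [e1, e2, e3]
  ring

theorem TT_add {R : Type*} [CommRing R] (k : ℕ) (P Q : Polynomial R) :
    TT k (P + Q) = TT k P + TT k Q := by
  unfold TT
  rw [derivative_add]
  ring

theorem TT_C {R : Type*} [CommRing R] (k : ℕ) (a : R) (Q : Polynomial R) :
    TT k (C a * Q) = C a * TT k Q := by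
  unfold TT
  rw [derivative_mul, derivative_C]
  ring

theorem TT_zero {R : Type*} [CommRing R] (k : ℕ) : TT k (0 : Polynomial R) = 0 := by
  unfold TT
  rw [derivative_zero]
  ring

theorem TT_sum {R : Type*} [CommRing R] (k : ℕ) (s : Finset ℕ) (f : ℕ → Polynomial R) :
    TT k (∑ i ∈ s, f i) = ∑ i ∈ s, TT k (f i) := by
  classical
  induction s using Finset.induction_on with
  | empty => rw [Finset.sum_empty, Finset.sum_empty, TT_zero]
  | insert a s ha ih => rw [Finset.sum_insert ha, Finset.sum_insert ha, TT_add, ih]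

/-- A shifted sum. -/
theorem sum_shift {N n : ℕ} (hN : n < 2 * N) (g : ℕ → ℚ) (G : ℕ → ℚ) :
    ∑ i ∈ Finset.range N, C (g i * sh G i) * bb n i =
      ∑ i ∈ Finset.range N, C (g (i + 1) * G i) * bb n (i + 1) := by
  have h1 : ∑ i ∈ Finset.range (N + 1), C (g i * sh G i) * bb n i =
      ∑ i ∈ Finset.range N, C (g i * sh G i) * bb n i := by
    rw [Finset.sum_range_succ, bb_zero hN, mul_zero, add_zero]
  rw [← h1, Finset.sum_range_succ']
  simp only [sh, mul_zero, map_zero, zero_mul, add_zero]

theorem TT_Sm {N n : ℕ} (hN : n + 1 < 2 * N) {G : ℕ → ℚ} (hG : ∀ i, n < 2 * i → G i = 0) :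
    TT (n + 1) (Sm N n G) = Sm N (n + 1) (ta n G) := by
  unfold Sm
  rw [TT_sum]
  have h1 : ∀ i ∈ Finset.range N, TT (n + 1) (C (G i) * bb n i) =
      C ((2 * (i : ℚ) + 1) * G i) * bb (n + 1) i +
        C ((4 * ((n : ℚ) + 2 - 2 * ((i + 1 : ℕ) : ℚ))) * G i) * bb (n + 1) (i + 1) := by
    intro i _
    rw [TT_C]
    by_cases h : 2 * i ≤ n
    · rw [TT_bb h, mul_add, ← mul_assoc, ← mul_assoc, ← C_mul, ← C_mul]
      congr 3
      · ring
      · push_cast; ring
    · rw [hG i (by omega)]
      simp
  rw [Finset.sum_congr rfl h1, Finset.sum_add_distrib,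
    ← sum_shift hN (fun i => 4 * ((n : ℚ) + 2 - 2 * (i : ℚ))) G, ← Finset.sum_add_distrib]
  apply Finset.sum_congr rfl
  intro i _
  rw [← add_mul, ← C_add]
  rfl

theorem om_Sm {N n : ℕ} (hN : n + 2 < 2 * N) {G : ℕ → ℚ} (hG : ∀ i, n < 2 * i → G i = 0) :
    (1 - X) ^ 2 * Sm N n G = Sm N (n + 2) (om G) := by
  unfold Sm
  rw [Finset.mul_sum]
  have h1 : ∀ i ∈ Finset.range N, (1 - X) ^ 2 * (C (G i) * bb n i) =
      C (G i) * bb (n + 2) i + C ((-4) * G i) * bb (n + 2) (i + 1) := by
    intro i _
    by_cases h : 2 * i ≤ n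
    · have := om_bb h
      rw [C_mul]
      have e : (C (-4) : ℚ[X]) = -4 := by rw [C_neg, C4]
      rw [e]
      linear_combination (C (G i)) * this
    · rw [hG i (by omega)]
      simp
  rw [Finset.sum_congr rfl h1, Finset.sum_add_distrib,
    ← sum_shift hN (fun _ => (-4 : ℚ)) G, ← Finset.sum_add_distrib]
  apply Finset.sum_congr rfl
  intro i _
  rw [← add_mul, ← C_add]
  congr 2
  unfold om
  ring

theorem Gm_supp : ∀ (n i : ℕ), n < 2 * i → Gm n i = 0
  | 0, i, h => by
    show (if i = 0 then (1 : ℚ) else 0) = 0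
    rw [if_neg (by omega)]
  | 1, i, h => by
    show (if i = 0 then (1 : ℚ) else 0) = 0
    rw [if_neg (by omega)]
  | (n + 2), i, h => by
    have h1 := Gm_supp (n + 1)
    have h0 := Gm_supp n
    have key : ∀ (k : ℕ) (G : ℕ → ℚ), (∀ i, k < 2 * i → G i = 0) →
        ∀ i, k + 1 < 2 * i → ta k G i = 0 := by
      intro k G hG i hi
      unfold ta
      rw [hG i (by omega)]
      cases i with
      | zero => omega
      | succ i =>
        simp only [sh]
        rcases Nat.lt_or_ge k (2 * i) with h2 | h2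
        · rw [hG i h2]; ring
        · have : k = 2 * i := by omega
          subst this
          push_cast
          ring
    show (2 * ta (n + 1) (Gm (n + 1)) i + ta (n + 1) (ta n (Gm n)) i +
      (2 * (n : ℚ) + 1) * om (Gm n) i) / (2 * (n : ℚ) + 4) = 0
    rw [key (n + 1) _ h1 i h, key (n + 1) _ (key n _ h0) i h]
    have : om (Gm n) i = 0 := by
      unfold om
      rw [h0 i (by omega)]
      cases i with
      | zero => simp [sh]
      | succ i =>
        simp only [sh]
        rw [h0 i (by omega)]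
        ring
    rw [this]
    ring

theorem ta_supp (k : ℕ) (G : ℕ → ℚ) (hG : ∀ i, k < 2 * i → G i = 0) :
    ∀ i, k + 1 < 2 * i → ta k G i = 0 := by
  intro i hi
  unfold ta
  rw [hG i (by omega)]
  cases i with
  | zero => omega
  | succ i =>
    simp only [sh]
    rcases Nat.lt_or_ge k (2 * i) with h2 | h2
    · rw [hG i h2]; ring
    · have : k = 2 * i := by omega
      subst this
      push_cast
      ring

theorem map_TT (k : ℕ) (Q : ℤ[X]) :
    (TT k Q).map (Int.castRingHom ℚ) = TT k (Q.map (Int.castRingHom ℚ)) := by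
  unfold TT
  rw [derivative_map]
  have e2 : (2 : ℤ[X]).map (Int.castRingHom ℚ) = 2 := by
    have : (2 : ℤ[X]) = C 2 := (map_ofNat C 2).symm
    rw [this, Polynomial.map_C]
    exact C2
  simp only [Polynomial.map_add, Polynomial.map_mul, Polynomial.map_sub, Polynomial.map_one,
    Polynomial.map_X, Polynomial.map_natCast, e2]

theorem map_PP (N : ℕ) : ∀ n : ℕ, n < 2 * N →
    (PP n).map (Int.castRingHom ℚ) = Sm N n (Gm n)
  | 0, h => by
    rw [PP_zero, Polynomial.map_one]
    unfold Sm
    rw [Finset.sum_eq_single 0]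
    · simp [Gm, bb]
    · intro i _ hi
      simp [Gm, hi]
    · intro h2
      exact absurd (Finset.mem_range.2 (by omega)) h2
  | 1, h => by
    rw [PP_one]
    unfold Sm
    rw [Finset.sum_eq_single 0]
    · simp [Gm, bb]
    · intro i _ hi
      simp [Gm, hi]
    · intro h2
      exact absurd (Finset.mem_range.2 (by omega)) h2
  | (n + 2), h => by
    have h1 := map_PP N (n + 1) (by omega)
    have h0 := map_PP N n (by omega)
    have hr := congrArg (Polynomial.map (Int.castRingHom ℚ)) (PP_rec n)
    rw [Polynomial.map_mul, Polynomial.map_add, Polynomial.map_add, Polynomial.map_mul,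
      Polynomial.map_mul, Polynomial.map_mul, map_TT, map_TT, map_TT, h1, h0] at hr
    have e1 : ((2 * (n : ℤ) + 4 : ℤ) : ℤ[X]).map (Int.castRingHom ℚ) =
        C (2 * (n : ℚ) + 4) := by
      rw [Polynomial.map_intCast, C_add, C_mul, C2, C4]
      push_cast
      rw [map_natCast]
    have e2 : ((2 * (n : ℤ) + 1 : ℤ) : ℤ[X]).map (Int.castRingHom ℚ) =
        C (2 * (n : ℚ) + 1) := by
      rw [Polynomial.map_intCast, C_add, C_mul, C2, C_1]
      push_cast
      rw [map_natCast]
    have e3 : ((1 - X : ℤ[X]) ^ 2).map (Int.castRingHom ℚ) = (1 - X) ^ 2 := by simp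
    have e4 : (2 : ℤ[X]).map (Int.castRingHom ℚ) = C (2 : ℚ) := by
      have : (2 : ℤ[X]) = C 2 := (map_ofNat C 2).symm
      rw [this, Polynomial.map_C]
      rfl
    rw [e1, e2, e3, e4, TT_Sm (by omega) (Gm_supp (n + 1)), TT_Sm (by omega) (Gm_supp n),
      TT_Sm (by omega) (ta_supp n _ (Gm_supp n)), om_Sm (by omega) (Gm_supp n)] at hr
    have hne : (C (2 * (n : ℚ) + 4) : ℚ[X]) ≠ 0 := by
      rw [Ne, C_eq_zero]
      positivity
    apply mul_left_cancel₀ hne
    rw [hr]
    unfold Sm
    rw [Finset.mul_sum, Finset.mul_sum, Finset.mul_sum, ← Finset.sum_add_distrib,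
      ← Finset.sum_add_distrib]
    apply Finset.sum_congr rfl
    intro i _
    rw [← mul_assoc, ← mul_assoc, ← mul_assoc, ← C_mul, ← C_mul, ← C_mul, ← add_mul, ← add_mul,
      ← C_add, ← C_add]
    congr 2
    have hne2 : (2 * (n : ℚ) + 4) ≠ 0 := by positivity
    show _ = (2 * (n : ℚ) + 4) * ((2 * ta (n + 1) (Gm (n + 1)) i + ta (n + 1) (ta n (Gm n)) i +
      (2 * (n : ℚ) + 1) * om (Gm n) i) / (2 * (n : ℚ) + 4))
    rw [mul_div_cancel₀ _ hne2]

/-- The recurrence for the coefficients. -/
theorem Gm_rec (n i : ℕ) : (2 * (n : ℚ) + 4) * Gm (n + 2) i =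
    2 * ta (n + 1) (Gm (n + 1)) i + ta (n + 1) (ta n (Gm n)) i +
      (2 * (n : ℚ) + 1) * om (Gm n) i := by
  have hne2 : (2 * (n : ℚ) + 4) ≠ 0 := by positivity
  show (2 * (n : ℚ) + 4) * ((2 * ta (n + 1) (Gm (n + 1)) i + ta (n + 1) (ta n (Gm n)) i +
      (2 * (n : ℚ) + 1) * om (Gm n) i) / (2 * (n : ℚ) + 4)) = _
  rw [mul_div_cancel₀ _ hne2]

theorem rec0 (n : ℕ) : (2 * (n : ℚ) + 4) * Gm (n + 2) 0 =
    2 * Gm (n + 1) 0 + (2 * (n : ℚ) + 2) * Gm n 0 := by
  rw [Gm_rec]
  unfold om ta
  simp only [sh]
  push_cast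
  ring

theorem rec1 (n : ℕ) : (2 * (n : ℚ) + 4) * Gm (n + 2) 1 =
    6 * Gm (n + 1) 1 + 8 * ((n : ℚ) + 1) * Gm (n + 1) 0 +
      (10 + 2 * (n : ℚ)) * Gm n 1 + 8 * (n : ℚ) * Gm n 0 := by
  rw [Gm_rec]
  unfold om ta
  simp only [sh]
  push_cast
  ring

theorem rec2 (n j : ℕ) : (2 * (n : ℚ) + 4) * Gm (n + 2) (j + 2) =
    2 * (2 * (j : ℚ) + 5) * Gm (n + 1) (j + 2) +
      8 * ((n : ℚ) - 2 * j - 1) * Gm (n + 1) (j + 1) +
      ((2 * (j : ℚ) + 5) ^ 2 + 2 * n + 1) * Gm n (j + 2) +
      4 * ((4 * (j : ℚ) + 6) * ((n : ℚ) - 2 * j - 2) - 2 * j - 2) * Gm n (j + 1) +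
      16 * ((n : ℚ) - 2 * j - 1) * ((n : ℚ) - 2 * j) * Gm n j := by
  rw [Gm_rec]
  unfold om ta
  simp only [sh]
  push_cast
  ring

/-- The coefficients are nonnegative. -/
theorem Gm_nonneg : ∀ n i : ℕ, 0 ≤ Gm n i := by
  intro n
  induction n using Nat.strong_induction_on with
  | _ n ih =>
    match n, ih with
    | 0, _ =>
      intro i
      show (0 : ℚ) ≤ if i = 0 then 1 else 0
      split_ifs <;> norm_num
    | 1, _ =>
      intro i
      show (0 : ℚ) ≤ if i = 0 then 1 else 0
      split_ifs <;> norm_num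
    | n + 2, ih =>
      have hn : (0 : ℚ) ≤ n := Nat.cast_nonneg n
      have h1 := ih (n + 1) (by omega)
      have h0 := ih n (by omega)
      have hp : (0 : ℚ) < 2 * (n : ℚ) + 4 := by positivity
      intro i
      refine nonneg_of_mul_nonneg_right (a := 2 * (n : ℚ) + 4) ?_ hp
      match i with
      | 0 =>
        rw [rec0]
        have a1 := h1 0
        have a2 := h0 0
        positivity
      | 1 =>
        rw [rec1]
        have a1 := h1 0
        have a2 := h0 0
        have a3 := h1 1
        have a4 := h0 1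
        positivity
      | j + 2 =>
        rcases Nat.lt_or_ge (n + 2) (2 * (j + 2)) with hlt | hge
        · rw [Gm_supp (n + 2) (j + 2) hlt, mul_zero]
        · have hj : (0 : ℚ) ≤ j := Nat.cast_nonneg j
          rcases Nat.eq_or_lt_of_le hge with he | hgt
          · -- the middle coefficient
            have hnj : n = 2 * j + 2 := by omega
            subst hnj
            rw [rec2, Gm_supp (2 * j + 2 + 1) (j + 2) (by omega),
              Gm_supp (2 * j + 2) (j + 2) (by omega)]
            have hgoal : 0 ≤ Gm (2 * j + 3) (j + 1) - ((j : ℚ) + 1) * Gm (2 * j + 2) (j + 1) +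
                4 * Gm (2 * j + 2) j := by
              match j with
              | 0 =>
                have e3 := rec1 1
                have e2 := rec1 0
                have e4 := rec0 0
                have g10 : Gm 1 0 = 1 := rfl
                have g00 : Gm 0 0 = 1 := rfl
                have g11 : Gm 1 1 = 0 := rfl
                have g01 : Gm 0 1 = 0 := rfl
                rw [g10, g00, g11, g01] at e2
                rw [g10, g00] at e4
                rw [g10, g11] at e3
                norm_num at e3 e2 e4 ⊢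
                linarith
              | j + 1 =>
                -- the middle coefficient two levels below
                have m1 := rec2 (2 * j + 2) j
                rw [Gm_supp (2 * j + 2 + 1) (j + 2) (by omega),
                  Gm_supp (2 * j + 2) (j + 2) (by omega)] at m1
                have b1 : 0 ≤ Gm (2 * j + 3) (j + 1) := ih (2 * j + 3) (by omega) _
                have b2 : 0 ≤ Gm (2 * j + 2) (j + 1) := ih (2 * j + 2) (by omega) _
                have b3 : 0 ≤ Gm (2 * j + 2) j := ih (2 * j + 2) (by omega) _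
                have b4 : 0 ≤ Gm (2 * j + 5) (j + 2) := ih (2 * j + 5) (by omega) _
                have e5 : 2 * (j + 1) + 3 = 2 * j + 5 := by ring
                have e6 : 2 * (j + 1) + 2 = 2 * j + 4 := by ring
                have e7 : j + 1 + 1 = j + 2 := rfl
                have e8 : 2 * j + 2 + 2 = 2 * j + 4 := rfl
                have e9 : 2 * j + 2 + 1 = 2 * j + 3 := rfl
                rw [e5, e6, e7]
                rw [e8, e9] at m1
                -- a lower bound for the next coefficient
                have hlow : (4 * (j : ℚ) + 8) * Gm (2 * j + 4) (j + 1) ≥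
                    2 * (2 * (j : ℚ) + 3) * Gm (2 * j + 3) (j + 1) +
                      2 * (12 * (j : ℚ) + 8) * Gm (2 * j + 2) j := by
                  match j with
                  | 0 =>
                    have c1 := rec1 2
                    have d1 : 0 ≤ Gm 3 0 := ih 3 (by omega) _
                    have d2 : 0 ≤ Gm 2 1 := ih 2 (by omega) _
                    have d3 : 0 ≤ Gm 2 0 := ih 2 (by omega) _
                    norm_num at c1 ⊢
                    linarith
                  | j + 1 =>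
                    have c1 := rec2 (2 * j + 4) j
                    have d1 : 0 ≤ Gm (2 * j + 5) (j + 1) := ih (2 * j + 5) (by omega) _
                    have d2 : 0 ≤ Gm (2 * j + 4) (j + 2) := ih (2 * j + 4) (by omega) _
                    have d3 : 0 ≤ Gm (2 * j + 4) j := ih (2 * j + 4) (by omega) _
                    have k1 : 2 * (j + 1) + 4 = 2 * j + 6 := by ring
                    have k2 : 2 * (j + 1) + 3 = 2 * j + 5 := by ring
                    have k3 : 2 * (j + 1) + 2 = 2 * j + 4 := by ring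
                    have k4 : j + 1 + 1 = j + 2 := rfl
                    have k5 : 2 * j + 4 + 2 = 2 * j + 6 := rfl
                    have k6 : 2 * j + 4 + 1 = 2 * j + 5 := rfl
                    rw [k1, k2, k3, k4]
                    rw [k5, k6] at c1
                    push_cast at c1 ⊢
                    have hj' : (0 : ℚ) ≤ j := Nat.cast_nonneg j
                    have p1 : 0 ≤ (j : ℚ) * Gm (2 * j + 5) (j + 1) := mul_nonneg hj' d1
                    have p2 : 0 ≤ (j : ℚ) * Gm (2 * j + 4) (j + 2) := mul_nonneg hj' d2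
                    have p3 : 0 ≤ (j : ℚ) * ((j : ℚ) * Gm (2 * j + 4) (j + 2)) :=
                      mul_nonneg hj' p2
                    nlinarith [c1, d1, d2, d3, p1, p2, p3]
                have hj' : (0 : ℚ) ≤ j := Nat.cast_nonneg j
                push_cast at m1 ⊢
                have p1 : 0 ≤ (j : ℚ) * Gm (2 * j + 3) (j + 1) := mul_nonneg hj' b1
                have p2 : 0 ≤ (j : ℚ) * Gm (2 * j + 2) (j + 1) := mul_nonneg hj' b2
                have p3 : 0 ≤ (j : ℚ) * Gm (2 * j + 2) j := mul_nonneg hj' b3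
                have q1 : 0 ≤ ((j : ℚ) + 2) * (4 * Gm (2 * j + 4) (j + 1) -
                    2 * Gm (2 * j + 3) (j + 1) - 8 * Gm (2 * j + 2) j) := by
                  linarith
                have q2 : 0 ≤ 4 * Gm (2 * j + 4) (j + 1) -
                    2 * Gm (2 * j + 3) (j + 1) - 8 * Gm (2 * j + 2) j :=
                  nonneg_of_mul_nonneg_right q1 (by positivity)
                linarith
            have e1 : 2 * j + 2 + 1 = 2 * j + 3 := rfl
            rw [e1]
            push_cast
            linarith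
          · -- the other coefficients
            rw [rec2]
            have hd : (1 : ℚ) ≤ (n : ℚ) - 2 * j - 2 := by
              have : 2 * j + 3 ≤ n := by omega
              have : (2 * (j : ℚ) + 3) ≤ n := by exact_mod_cast this
              linarith
            have a1 := h1 (j + 2)
            have a2 := h1 (j + 1)
            have a3 := h0 (j + 2)
            have a4 := h0 (j + 1)
            have a5 := h0 j
            have c1 : 0 ≤ (n : ℚ) - 2 * j - 1 := by linarith
            have c2 : 0 ≤ (n : ℚ) - 2 * j := by linarith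
            have c3 : 0 ≤ (4 * (j : ℚ) + 6) * ((n : ℚ) - 2 * j - 2) - 2 * j - 2 := by
              nlinarith
            have t1 : 0 ≤ 2 * (2 * (j : ℚ) + 5) * Gm (n + 1) (j + 2) := by positivity
            have t2 : 0 ≤ 8 * ((n : ℚ) - 2 * j - 1) * Gm (n + 1) (j + 1) := by positivity
            have t3 : 0 ≤ ((2 * (j : ℚ) + 5) ^ 2 + 2 * n + 1) * Gm n (j + 2) := by positivity
            have t4 : 0 ≤ 4 * ((4 * (j : ℚ) + 6) * ((n : ℚ) - 2 * j - 2) - 2 * j - 2) *
                Gm n (j + 1) := by positivity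
            have t5 : 0 ≤ 16 * ((n : ℚ) - 2 * j - 1) * ((n : ℚ) - 2 * j) * Gm n j := by
              positivity
            linarith

end Pool.Agent.TH429.GI
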