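import Mathlib

/-!
# The coefficients of `(1 - X)^{-p} (1 - X^2)^{-q}`
-/

set_option autoImplicit false

namespace Pool.Agent.TH429.GI

open PowerSeries Finset

/-- `1 / (1 - X)`. -/
noncomputable def geo1 : PowerSeries ℤ := PowerSeries.mk fun _ => 1

/-- `1 / (1 - X ^ 2)`. -/
noncomputable def geo2 : PowerSeries ℤ := PowerSeries.mk fun k => if 2 ∣ k then 1 else 0

theorem geo1_mul : (1 - X) * geo1 = 1 := by
  ext n
  rw [sub_mul, one_mul, map_sub]
  cases n with
  | zero => simp [geo1]
  | succ n =>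
    rw [PowerSeries.coeff_succ_X_mul]
    simp [geo1, PowerSeries.coeff_one]

theorem geo2_mul : (1 - X ^ 2) * geo2 = 1 := by
  ext n
  rw [sub_mul, one_mul, map_sub, pow_two, mul_assoc]
  match n with
  | 0 => simp [geo2]
  | 1 =>
    rw [PowerSeries.coeff_succ_X_mul]
    simp [geo2, PowerSeries.coeff_one]
  | (n + 2) =>
    rw [PowerSeries.coeff_succ_X_mul, PowerSeries.coeff_succ_X_mul]
    have h : (2 ∣ n + 2) ↔ 2 ∣ n := by omega
    simp [geo2, PowerSeries.coeff_one, h]

/-- The generating function. -/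
noncomputable def Phi (p q : ℕ) : PowerSeries ℤ := geo1 ^ p * geo2 ^ q

/-- Its coefficients. -/
noncomputable def aa (p q n : ℕ) : ℤ := PowerSeries.coeff n (Phi p q)

theorem d_geo1 : derivative ℤ geo1 = geo1 ^ 2 := by
  have h := congrArg (derivative ℤ) geo1_mul
  rw [Derivation.leibniz] at h
  have h1 : derivative ℤ (1 - X : PowerSeries ℤ) = -1 := by
    rw [map_sub, PowerSeries.derivative_X]
    have : derivative ℤ (1 : PowerSeries ℤ) = 0 := (derivative ℤ).map_one_eq_zero
    rw [this]; ring
  have h2 : derivative ℤ (1 : PowerSeries ℤ) = 0 := (derivative ℤ).map_one_eq_zero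
  rw [h1, h2] at h
  simp only [smul_eq_mul] at h
  have h3 : geo1 * ((1 - X) * derivative ℤ geo1 + geo1 * -1) = 0 := by rw [h, mul_zero]
  have h4 : ((1 - X) * geo1) * derivative ℤ geo1 - geo1 ^ 2 = 0 := by
    rw [← h3]; ring
  rw [geo1_mul, one_mul] at h4
  exact sub_eq_zero.1 h4

theorem d_geo2 : derivative ℤ geo2 = 2 * X * geo2 ^ 2 := by
  have h := congrArg (derivative ℤ) geo2_mul
  rw [Derivation.leibniz] at h
  have h2 : derivative ℤ (1 : PowerSeries ℤ) = 0 := (derivative ℤ).map_one_eq_zero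
  have h1 : derivative ℤ (1 - X ^ 2 : PowerSeries ℤ) = - (2 * X) := by
    rw [map_sub, h2, Derivation.leibniz_pow, PowerSeries.derivative_X]
    simp only [smul_eq_mul, nsmul_eq_mul]
    push_cast
    ring
  rw [h1, h2] at h
  simp only [smul_eq_mul] at h
  have h3 : geo2 * ((1 - X ^ 2) * derivative ℤ geo2 + geo2 * -(2 * X)) = 0 := by rw [h, mul_zero]
  have h4 : ((1 - X ^ 2) * geo2) * derivative ℤ geo2 - 2 * X * geo2 ^ 2 = 0 := by
    rw [← h3]; ring
  rw [geo2_mul, one_mul] at h4
  exact sub_eq_zero.1 h4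

theorem d_Phi (p q : ℕ) :
    (1 - X ^ 2) * derivative ℤ (Phi p q) =
      ((p : PowerSeries ℤ) * (1 + X) + 2 * (q : PowerSeries ℤ) * X) * Phi p q := by
  have e1 : ∀ p : ℕ, derivative ℤ (geo1 ^ p) = (p : PowerSeries ℤ) * geo1 ^ p * geo1 := by
    intro p
    induction p with
    | zero =>
      simp only [pow_zero, Nat.cast_zero, zero_mul]
      exact (derivative ℤ).map_one_eq_zero
    | succ p ih =>
      rw [pow_succ, Derivation.leibniz, ih, d_geo1]
      simp only [smul_eq_mul]
      push_cast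
      ring
  have e2 : ∀ q : ℕ, derivative ℤ (geo2 ^ q) =
      (q : PowerSeries ℤ) * geo2 ^ q * (2 * X * geo2) := by
    intro q
    induction q with
    | zero =>
      simp only [pow_zero, Nat.cast_zero, zero_mul]
      exact (derivative ℤ).map_one_eq_zero
    | succ q ih =>
      rw [pow_succ, Derivation.leibniz, ih, d_geo2]
      simp only [smul_eq_mul]
      push_cast
      ring
  unfold Phi
  rw [Derivation.leibniz, e1, e2]
  simp only [smul_eq_mul]
  have h1 := geo1_mul
  have h2 := geo2_mul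
  linear_combination (2 * (q : PowerSeries ℤ) * X * geo1 ^ p * geo2 ^ q) * h2 +
    ((p : PowerSeries ℤ) * (1 + X) * geo1 ^ p * geo2 ^ q) * h1

theorem aa_zero (p q : ℕ) : aa p q 0 = 1 := by
  unfold aa Phi
  rw [PowerSeries.coeff_zero_eq_constantCoeff, map_mul, map_pow, map_pow]
  have h1 : PowerSeries.constantCoeff geo1 = 1 := by
    rw [← PowerSeries.coeff_zero_eq_constantCoeff]; simp [geo1]
  have h2 : PowerSeries.constantCoeff geo2 = 1 := by
    rw [← PowerSeries.coeff_zero_eq_constantCoeff]; simp [geo2]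
  rw [h1, h2]; simp

theorem aa_rec (p q n : ℕ) :
    ((n : ℤ) + 2) * aa p q (n + 2) =
      (p : ℤ) * aa p q (n + 1) + ((n : ℤ) + p + 2 * q) * aa p q n := by
  have h := congrArg (PowerSeries.coeff (n + 1)) (d_Phi p q)
  rw [sub_mul, one_mul, map_sub, PowerSeries.coeff_derivative] at h
  have h1 : PowerSeries.coeff (n + 1) (X ^ 2 * derivative ℤ (Phi p q)) =
      (n : ℤ) * aa p q n := by
    cases n with
    | zero =>
      rw [pow_two, mul_assoc, PowerSeries.coeff_succ_X_mul]
      simp
    | succ n =>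
      rw [pow_two, mul_assoc, PowerSeries.coeff_succ_X_mul, PowerSeries.coeff_succ_X_mul,
        PowerSeries.coeff_derivative]
      unfold aa
      push_cast
      ring
  have h2 : PowerSeries.coeff (n + 1) (((p : PowerSeries ℤ) * (1 + X) +
      2 * (q : PowerSeries ℤ) * X) * Phi p q) =
      (p : ℤ) * aa p q (n + 1) + (p : ℤ) * aa p q n + 2 * (q : ℤ) * aa p q n := by
    have e : ((p : PowerSeries ℤ) * (1 + X) + 2 * (q : PowerSeries ℤ) * X) * Phi p q =
        PowerSeries.C (p : ℤ) * Phi p q + PowerSeries.C ((p : ℤ) + 2 * q) * (X * Phi p q) := by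
      rw [map_add, map_mul]
      simp only [map_natCast]
      have : (PowerSeries.C (2 : ℤ)) = (2 : PowerSeries ℤ) := by
        exact map_ofNat _ 2
      rw [this]
      ring
    rw [e, map_add, PowerSeries.coeff_C_mul, PowerSeries.coeff_C_mul,
      PowerSeries.coeff_succ_X_mul]
    unfold aa
    ring
  rw [h1, h2] at h
  have h3 : PowerSeries.coeff (n + 1 + 1) (Phi p q) = aa p q (n + 2) := rfl
  rw [h3] at h
  push_cast at h
  linarith

theorem aa_one (p q : ℕ) : aa p q 1 = p := by
  have h := congrArg (PowerSeries.coeff 0) (d_Phi p q)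
  rw [sub_mul, one_mul, map_sub, PowerSeries.coeff_derivative] at h
  have h1 : PowerSeries.coeff 0 (X ^ 2 * derivative ℤ (Phi p q)) = 0 := by
    rw [pow_two, mul_assoc, PowerSeries.coeff_zero_X_mul]
  have h2 : PowerSeries.coeff 0 (((p : PowerSeries ℤ) * (1 + X) +
      2 * (q : PowerSeries ℤ) * X) * Phi p q) = (p : ℤ) * aa p q 0 := by
    have e : ((p : PowerSeries ℤ) * (1 + X) + 2 * (q : PowerSeries ℤ) * X) * Phi p q =
        PowerSeries.C (p : ℤ) * Phi p q + PowerSeries.C ((p : ℤ) + 2 * q) * (X * Phi p q) := by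
      rw [map_add, map_mul]
      simp only [map_natCast]
      have : (PowerSeries.C (2 : ℤ)) = (2 : PowerSeries ℤ) := by
        exact map_ofNat _ 2
      rw [this]
      ring
    rw [e, map_add, PowerSeries.coeff_C_mul, PowerSeries.coeff_C_mul,
      PowerSeries.coeff_zero_X_mul]
    unfold aa
    ring
  rw [h1, h2, aa_zero] at h
  have h3 : PowerSeries.coeff (0 + 1) (Phi p q) = aa p q 1 := rfl
  rw [h3] at h
  push_cast at h
  linarith

/-- The coefficient counts the functions `l` on `R₁ ∪ R₂` with sum `n` that are even on `R₂`. -/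
theorem aa_count {ι : Type} [DecidableEq ι] (R1 R2 : Finset ι) (hd : Disjoint R1 R2) (n : ℕ) :
    (((R1 ∪ R2).finsuppAntidiag n).filter (fun l => ∀ r ∈ R2, 2 ∣ l r)).card =
      aa R1.card R2.card n := by
  have h : Phi R1.card R2.card = ∏ r ∈ R1 ∪ R2, if r ∈ R2 then geo2 else geo1 := by
    rw [Finset.prod_union hd]
    unfold Phi
    congr 1
    · rw [Finset.prod_congr rfl (g := fun _ => geo1), Finset.prod_const]
      intro r hr
      rw [if_neg]
      exact Finset.disjoint_left.1 hd hr
    · rw [Finset.prod_congr rfl (g := fun _ => geo2), Finset.prod_const]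
      intro r hr
      rw [if_pos hr]
  unfold aa
  rw [h, PowerSeries.coeff_prod, Finset.card_filter]
  push_cast
  apply Finset.sum_congr rfl
  intro l _
  have h2 : ∀ r ∈ R1 ∪ R2, PowerSeries.coeff (l r) (if r ∈ R2 then geo2 else geo1) =
      if (r ∈ R2 → 2 ∣ l r) then (1 : ℤ) else 0 := by
    intro r _
    by_cases hr : r ∈ R2
    · simp [hr, geo2]
    · simp [hr, geo1]
  rw [Finset.prod_congr rfl h2, Finset.prod_ite_zero]
  simp only [Finset.prod_const_one]
  congr 1
  apply propext
  constructor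
  · intro h r _ h3
    exact h r h3
  · intro h r h3
    exact h r (Finset.mem_union_right _ h3) h3

end Pool.Agent.TH429.GI
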