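import Pool.Agent.TH429.GI.Fold

/-!
# The number of labellings compatible with a signed permutation
-/

set_option autoImplicit false

namespace Pool.Agent.TH429.GI

open Finset

/-- The last value of a sequence (`0` if there is none). -/
def topv : {n : ℕ} → (Fin n → ℕ) → ℕ
  | 0, _ => 0
  | (n + 1), f => f (Fin.last n)

/-- The sequence starts with at least `δ 0` and increases by at least `δ k` at the step `k`. -/
def Good (δ : ℕ → ℕ) : (n : ℕ) → (Fin n → ℕ) → Prop
  | 0, _ => True
  | (n + 1), f => Good δ n (Fin.init f) ∧ topv (Fin.init f) + δ n ≤ f (Fin.last n)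

theorem Good.le_top {δ : ℕ → ℕ} : ∀ {n : ℕ} {f : Fin n → ℕ}, Good δ n f → ∀ k, f k ≤ topv f := by
  intro n
  induction n with
  | zero => intro f _ k; exact k.elim0
  | succ n ih =>
    intro f hf k
    obtain ⟨h1, h2⟩ := hf
    refine Fin.lastCases ?_ (fun i => ?_) k
    · exact le_rfl
    · have := ih h1 i
      show f i.castSucc ≤ f (Fin.last n)
      have h3 : Fin.init f i = f i.castSucc := rfl
      rw [h3] at this
      omega

open Classical in
/-- The number of good sequences with values at most `m`. -/
noncomputable def cnt (δ : ℕ → ℕ) (n m : ℕ) : ℕ :=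
  ((Fintype.piFinset fun _ : Fin n => Finset.range (m + 1)).filter fun f => Good δ n f).card

theorem cnt_zero (δ : ℕ → ℕ) (m : ℕ) : cnt δ 0 m = 1 := by
  classical
  unfold cnt
  rw [Finset.card_eq_one]
  refine ⟨fun i => i.elim0, ?_⟩
  ext f
  rw [Finset.mem_filter, Finset.mem_singleton, Fintype.mem_piFinset]
  constructor
  · intro _; funext i; exact i.elim0
  · intro _
    exact ⟨fun i => i.elim0, trivial⟩

theorem cnt_succ (δ : ℕ → ℕ) (n m : ℕ) :
    cnt δ (n + 1) m = ∑ t ∈ Finset.range (m + 1), if δ n ≤ t then cnt δ n (t - δ n) else 0 := by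
  classical
  unfold cnt
  rw [Finset.card_eq_sum_card_fiberwise (f := fun f : Fin (n + 1) → ℕ => f (Fin.last n))
    (t := Finset.range (m + 1))]
  · apply Finset.sum_congr rfl
    intro t ht
    rw [Finset.mem_range] at ht
    split_ifs with hd
    · apply Finset.card_nbij' (fun f => Fin.init f) (fun g => Fin.snoc g t)
      · intro f hf
        rw [Finset.mem_coe, Finset.mem_filter, Finset.mem_filter, Fintype.mem_piFinset] at hf
        obtain ⟨⟨h1, h2, h3⟩, h4⟩ := hf
        rw [Finset.mem_coe, Finset.mem_filter, Fintype.mem_piFinset]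
        refine ⟨?_, h2⟩
        intro i
        have := h2.le_top i
        rw [Finset.mem_range]
        rw [h4] at h3
        show Fin.init f i < _
        omega
      · intro g hg
        rw [Finset.mem_coe, Finset.mem_filter, Fintype.mem_piFinset] at hg
        obtain ⟨h1, h2⟩ := hg
        have h3 : topv g ≤ t - δ n := by
          cases n with
          | zero => exact Nat.zero_le _
          | succ n =>
            have := h1 (Fin.last n)
            rw [Finset.mem_range] at this
            show g (Fin.last n) ≤ _
            omega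
        rw [Finset.mem_coe, Finset.mem_filter, Finset.mem_filter, Fintype.mem_piFinset]
        refine ⟨⟨?_, ?_, ?_⟩, ?_⟩
        · intro i
          show (Fin.snoc g t : Fin (n + 1) → ℕ) i ∈ _
          refine Fin.lastCases ?_ (fun j => ?_) i
          · rw [Fin.snoc_last, Finset.mem_range]; exact ht
          · rw [Fin.snoc_castSucc, Finset.mem_range]
            have := h1 j
            rw [Finset.mem_range] at this
            omega
        · show Good δ n (Fin.init (Fin.snoc g t : Fin (n + 1) → ℕ))
          rw [Fin.init_snoc]; exact h2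
        · show topv (Fin.init (Fin.snoc g t : Fin (n + 1) → ℕ)) + δ n ≤
            (Fin.snoc g t : Fin (n + 1) → ℕ) (Fin.last n)
          rw [Fin.init_snoc, Fin.snoc_last]; omega
        · show (Fin.snoc g t : Fin (n + 1) → ℕ) (Fin.last n) = t
          rw [Fin.snoc_last]
      · intro f hf
        rw [Finset.mem_coe, Finset.mem_filter, Finset.mem_filter, Fintype.mem_piFinset] at hf
        rw [← hf.2]
        exact Fin.snoc_init_self f
      · intro g hg
        exact Fin.init_snoc (α := fun _ => ℕ) t g
    · rw [Finset.card_eq_zero, Finset.eq_empty_iff_forall_notMem]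
      intro f hf
      rw [Finset.mem_filter, Finset.mem_filter] at hf
      obtain ⟨⟨_, _, h3⟩, h4⟩ := hf
      rw [h4] at h3
      omega
  · intro f hf
    rw [Finset.mem_coe, Finset.mem_filter, Fintype.mem_piFinset] at hf
    exact hf.1 _

theorem mk_cnt (δ : ℕ → ℕ) (n : ℕ) :
    (PowerSeries.mk fun m => (cnt δ n m : ℤ)) =
      PowerSeries.X ^ (∑ k ∈ Finset.range n, δ k) * geo1 ^ (n + 1) := by
  induction n with
  | zero =>
    simp only [cnt_zero, Finset.range_zero, Finset.sum_empty, pow_zero, one_mul, zero_add, pow_one]
    rfl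
  | succ n ih =>
    rw [Finset.sum_range_succ, pow_add, pow_succ geo1 (n + 1)]
    have : PowerSeries.X ^ (∑ k ∈ Finset.range n, δ k) * PowerSeries.X ^ δ n *
        (geo1 ^ (n + 1) * geo1) = geo1 * (PowerSeries.X ^ δ n *
        (PowerSeries.X ^ (∑ k ∈ Finset.range n, δ k) * geo1 ^ (n + 1))) := by ring
    rw [this, ← ih]
    ext m
    rw [PowerSeries.coeff_mk, cnt_succ, PowerSeries.coeff_mul,
      Finset.Nat.sum_antidiagonal_eq_sum_range_succ_mk]
    push_cast
    rw [← Finset.sum_range_reflect]
    apply Finset.sum_congr rfl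
    intro t ht
    rw [Finset.mem_range] at ht
    have e1 : m + 1 - 1 - t = m - t := by omega
    rw [e1, PowerSeries.coeff_X_pow_mul', PowerSeries.coeff_mk]
    unfold geo1
    rw [PowerSeries.coeff_mk, one_mul]

/-- The previous value (`0` at the start). -/
def prev {n : ℕ} (f : Fin n → ℕ) (k : Fin n) : ℕ :=
  if (k : ℕ) = 0 then 0 else f ⟨k - 1, by omega⟩

theorem good_iff (δ : ℕ → ℕ) : ∀ {n : ℕ} (f : Fin n → ℕ),
    Good δ n f ↔ ∀ k : Fin n, prev f k + δ k ≤ f k := by
  intro n
  induction n with
  | zero => intro f; exact ⟨fun _ k => k.elim0, fun _ => trivial⟩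
  | succ n ih =>
    intro f
    have htop : topv (Fin.init f) = prev f (Fin.last n) := by
      cases n with
      | zero => rfl
      | succ n =>
        unfold prev
        rw [if_neg (by simp)]
        rfl
    have hprev : ∀ k : Fin n, prev (Fin.init f) k = prev f k.castSucc := by
      intro k
      unfold prev
      rfl
    constructor
    · rintro ⟨h1, h2⟩ k
      refine Fin.lastCases ?_ (fun i => ?_) k
      · rw [← htop]; exact h2
      · rw [← hprev]
        exact (ih _).1 h1 i
    · intro h
      refine ⟨(ih _).2 (fun k => ?_), ?_⟩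
      · rw [hprev]; exact h k.castSucc
      · rw [htop]; exact h (Fin.last n)

/-- The signed value at a position. -/
def vv {n : ℕ} (w : Equiv.Perm (Fin n) × (Fin n → Bool)) (k : ℕ) : ℤ :=
  if h : k < n then sval (w.1 ⟨k, h⟩, w.2 ⟨k, h⟩) else 0

/-- The indicators of the descents. -/
def dd {n : ℕ} (w : Equiv.Perm (Fin n) × (Fin n → Bool)) (k : ℕ) : ℕ :=
  if k = 0 then (if vv w 0 < 0 then 1 else 0) else (if vv w k < vv w (k - 1) then 1 else 0)

theorem sval_inj {n : ℕ} {x y : Fin n × Bool} (h : sval x = sval y) : x = y := by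
  have h1 : ¬ E n x < E n y := by rw [E_lt, h]; exact lt_irrefl _
  have h2 : ¬ E n y < E n x := by rw [E_lt, h]; exact lt_irrefl _
  exact E_inj (le_antisymm (not_lt.1 h2) (not_lt.1 h1))

theorem sval_neg_iff {n : ℕ} (x : Fin n × Bool) : sval x < 0 ↔ x.2 = true := by
  obtain ⟨i, b⟩ := x
  unfold sval
  cases b <;> simp <;> omega

theorem vv_inj {n : ℕ} (w : Equiv.Perm (Fin n) × (Fin n → Bool)) {i j : ℕ} (hi : i < n)
    (hj : j < n) (h : vv w i = vv w j) : i = j := by
  unfold vv at h
  rw [dif_pos hi, dif_pos hj] at h
  have h1 := congrArg Prod.fst (sval_inj h)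
  have h2 := w.1.injective h1
  exact Fin.mk.inj h2

theorem cc_iff {n : ℕ} (w : Equiv.Perm (Fin n) × (Fin n → Bool)) (f : Fin n → ℕ) :
    CC w f ↔ Good (dd w) n f := by
  rw [good_iff]
  have hv : ∀ k : Fin n, vv w k = sval (w.1 k, w.2 k) := by
    intro k
    unfold vv
    rw [dif_pos k.isLt]
  constructor
  · intro h k
    unfold prev dd
    by_cases hk : (k : ℕ) = 0
    · rw [if_pos hk, if_pos hk]
      split_ifs with h1
      · have e : vv w 0 = vv w k := by rw [hk]
        rw [e, hv, sval_neg_iff] at h1
        have : f k ≠ 0 := by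
          intro h0
          have := h.zero k h0
          simp only at h1
          rw [this] at h1
          exact Bool.false_ne_true h1
        omega
      · omega
    · rw [if_neg hk, if_neg hk]
      have hk1 : (k : ℕ) - 1 < n := by omega
      have hle := h.mono ⟨k - 1, hk1⟩ k (by rw [Fin.le_def]; simp only; omega)
      split_ifs with h1
      · have hne : f ⟨k - 1, hk1⟩ ≠ f k := by
          intro he
          have h2 := h.incr ⟨k - 1, hk1⟩ k (by rw [Fin.lt_def]; simp only; omega) he
          rw [← hv, ← hv] at h2
          exact absurd h1 (not_lt.2 h2.le)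
        omega
      · omega
  · intro h
    have hstep : ∀ k (hk : k + 1 < n), f ⟨k, by omega⟩ + (if vv w (k + 1) < vv w k then 1 else 0) ≤
        f ⟨k + 1, hk⟩ := by
      intro k hk
      have := h ⟨k + 1, hk⟩
      unfold prev dd at this
      simpa using this
    have hmono : ∀ j i (hj : j < n) (hi : i ≤ j), f ⟨i, by omega⟩ ≤ f ⟨j, hj⟩ := by
      intro j
      induction j with
      | zero => intro i hj hi; have : i = 0 := by omega
                subst this; exact le_rfl
      | succ j ih =>
        intro i hj hi
        rcases Nat.lt_or_ge i (j + 1) with h1 | h1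
        · have := ih i (by omega) (by omega)
          have := hstep j hj
          omega
        · have : i = j + 1 := by omega
          subst this; exact le_rfl
    have hstrict : ∀ k (hk : k + 1 < n), f ⟨k, by omega⟩ = f ⟨k + 1, hk⟩ →
        vv w k < vv w (k + 1) := by
      intro k hk he
      have h1 := hstep k hk
      have h2 : ¬ vv w (k + 1) < vv w k := by
        intro h3
        rw [if_pos h3] at h1
        omega
      rcases lt_or_eq_of_le (not_lt.1 h2) with h3 | h3
      · exact h3
      · have := vv_inj w (by omega) hk h3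
        omega
    have hincr : ∀ j i (hj : j < n) (hi : i < j), f ⟨i, by omega⟩ = f ⟨j, hj⟩ →
        vv w i < vv w j := by
      intro j
      induction j with
      | zero => intro i hj hi; omega
      | succ j ih =>
        intro i hj hi he
        rcases Nat.lt_or_ge i j with h1 | h1
        · have e1 := hmono j i (by omega) (by omega)
          have e2 := hmono (j + 1) j hj (by omega)
          exact (ih i (by omega) h1 (by omega)).trans (hstrict j hj (by omega))
        · have : i = j := by omega
          subst this
          exact hstrict i hj he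
    refine ⟨?_, ?_, ?_⟩
    · intro i j hij
      exact hmono j i j.isLt hij
    · intro i j hij he
      rw [← hv, ← hv]
      exact hincr j i j.isLt hij he
    · intro i hi
      have hn : 0 < n := by have := i.isLt; omega
      have h0 : f ⟨0, hn⟩ = 0 := by
        have := hmono i 0 i.isLt (Nat.zero_le _)
        have e : f ⟨(i : ℕ), i.isLt⟩ = f i := rfl
        omega
      have h1 : ¬ vv w 0 < 0 := by
        intro h2
        have := h ⟨0, hn⟩
        unfold prev dd at this
        simp only [if_true] at this
        rw [if_pos h2] at this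
        omega
      have h2 : ¬ vv w i < 0 := by
        rcases Nat.eq_zero_or_pos (i : ℕ) with h3 | h3
        · rw [h3]; exact h1
        · have := hincr i 0 i.isLt h3 (by
            have e : f ⟨(i : ℕ), i.isLt⟩ = f i := rfl
            omega)
          intro h4
          exact h1 (this.trans h4)
      rw [hv, sval_neg_iff] at h2
      simpa using h2

theorem card_AA_eq (n m : ℕ) (s : Finset (Equiv.Perm (Fin n) × (Fin n → Bool)))
    (hs : ∀ w, w ∈ s ↔ IsInv w) : (AA n m).card = ∑ w ∈ s, cnt (dd w) n m := by
  classical
  rw [Finset.card_eq_sum_card_fiberwise (f := fun x => x.1) (t := s)]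
  · apply Finset.sum_congr rfl
    intro w hw
    unfold cnt
    apply Finset.card_bij (fun x _ => fun i => ((x.2 i : Fin (m + 1)) : ℕ))
    · intro x hx
      rw [Finset.mem_filter] at hx
      unfold AA at hx
      rw [Finset.mem_filter] at hx
      rw [Finset.mem_filter, Fintype.mem_piFinset]
      refine ⟨fun i => Finset.mem_range.2 (x.2 i).isLt, ?_⟩
      rw [← cc_iff, ← hx.2]
      exact hx.1.2.2
    · intro x hx y hy hxy
      rw [Finset.mem_filter] at hx hy
      apply Prod.ext
      · rw [hx.2, hy.2]
      · funext i
        exact Fin.ext (congrFun hxy i)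
    · intro f hf
      rw [Finset.mem_filter, Fintype.mem_piFinset] at hf
      refine ⟨(w, fun i => ⟨f i, Finset.mem_range.1 (hf.1 i)⟩), ?_, rfl⟩
      rw [Finset.mem_filter]
      refine ⟨?_, rfl⟩
      unfold AA
      rw [Finset.mem_filter]
      exact ⟨Finset.mem_univ _, (hs w).1 hw, (cc_iff _ _).2 hf.2⟩
  · intro x hx
    rw [Finset.mem_coe] at hx
    unfold AA at hx
    rw [Finset.mem_filter] at hx
    exact (hs _).2 hx.2.1

/-- The generating function of the values `aa (2 m + 1) (m ^ 2) n`. -/
theorem main_series (n : ℕ) (s : Finset (Equiv.Perm (Fin n) × (Fin n → Bool)))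
    (hs : ∀ w, w ∈ s ↔ IsInv w) :
    (PowerSeries.mk fun m => aa (2 * m + 1) (m ^ 2) n) =
      (∑ w ∈ s, PowerSeries.X ^ (∑ k ∈ Finset.range n, dd w k)) * geo1 ^ (n + 1) := by
  rw [Finset.sum_mul]
  simp only [← mk_cnt]
  ext m
  rw [PowerSeries.coeff_mk, map_sum]
  simp only [PowerSeries.coeff_mk]
  rw [← card_AA, card_AA_eq n m s hs]
  push_cast
  rfl

theorem des_eq {n : ℕ} (w : Equiv.Perm (Fin n) × (Fin n → Bool)) :
    (Finset.univ.filter (fun j : Fin n => j.val = 0 ∧ w.2 j = true)).card +
      (Finset.univ.filter (fun p : Fin n × Fin n => p.2.val = p.1.val + 1 ∧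
        (if w.2 p.2 then (-1 : ℤ) else 1) * (((w.1 p.2 : ℕ) : ℤ) + 1) <
        (if w.2 p.1 then (-1 : ℤ) else 1) * (((w.1 p.1 : ℕ) : ℤ) + 1))).card =
      ∑ k ∈ Finset.range n, dd w k := by
  cases n with
  | zero => simp
  | succ n =>
    rw [Finset.sum_range_succ']
    have h1 : (Finset.univ.filter (fun j : Fin (n + 1) => j.val = 0 ∧ w.2 j = true)).card =
        dd w 0 := by
      have e : vv w 0 = sval (w.1 0, w.2 0) := by
        unfold vv
        rw [dif_pos (Nat.succ_pos n)]
        rfl
      unfold dd
      rw [if_pos rfl, e]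
      simp only [sval_neg_iff]
      by_cases h : w.2 0 = true
      · rw [if_pos h, Finset.card_eq_one]
        refine ⟨0, ?_⟩
        ext j
        rw [Finset.mem_filter, Finset.mem_singleton]
        constructor
        · rintro ⟨_, h2, _⟩
          exact Fin.ext h2
        · rintro rfl
          exact ⟨Finset.mem_univ _, rfl, h⟩
      · rw [if_neg h, Finset.card_eq_zero, Finset.eq_empty_iff_forall_notMem]
        intro j hj
        rw [Finset.mem_filter] at hj
        obtain ⟨_, h2, h3⟩ := hj
        have : j = 0 := Fin.ext h2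
        rw [this] at h3
        exact h h3
    have h2 : (Finset.univ.filter (fun p : Fin (n + 1) × Fin (n + 1) => p.2.val = p.1.val + 1 ∧
        (if w.2 p.2 then (-1 : ℤ) else 1) * (((w.1 p.2 : ℕ) : ℤ) + 1) <
        (if w.2 p.1 then (-1 : ℤ) else 1) * (((w.1 p.1 : ℕ) : ℤ) + 1))).card =
        ∑ k ∈ Finset.range n, dd w (k + 1) := by
      have e : ∀ k ∈ Finset.range n, dd w (k + 1) = if vv w (k + 1) < vv w k then 1 else 0 := by
        intro k _
        unfold dd
        rw [if_neg (Nat.succ_ne_zero k)]
        rfl
      rw [Finset.sum_congr rfl e, ← Finset.card_filter]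
      have hv : ∀ k : Fin (n + 1), vv w k = sval (w.1 k, w.2 k) := by
        intro k
        unfold vv
        rw [dif_pos k.isLt]
      apply Finset.card_bij (fun p _ => (p.1 : ℕ))
      · intro p hp
        rw [Finset.mem_filter] at hp
        obtain ⟨_, h3, h4⟩ := hp
        rw [Finset.mem_filter, Finset.mem_range]
        have h5 := p.2.isLt
        refine ⟨by omega, ?_⟩
        rw [← h3, hv, hv]
        exact h4
      · intro p hp q hq hpq
        rw [Finset.mem_filter] at hp hq
        have h3 := hp.2.1
        have h4 := hq.2.1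
        apply Prod.ext
        · exact Fin.ext hpq
        · apply Fin.ext
          omega
      · intro k hk
        rw [Finset.mem_filter, Finset.mem_range] at hk
        refine ⟨(⟨k, by omega⟩, ⟨k + 1, by omega⟩), ?_, rfl⟩
        rw [Finset.mem_filter]
        refine ⟨Finset.mem_univ _, rfl, ?_⟩
        have h3 := hk.2
        have e1 := hv ⟨k, by omega⟩
        have e2 := hv ⟨k + 1, by omega⟩
        simp only at e1 e2
        rw [e1, e2] at h3
        exact h3
    rw [h1, h2, add_comm]

end Pool.Agent.TH429.GI
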