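import Mathlib

/-!
# Symmetric multisets of pairs of integers

Multisets of pairs of integers that are invariant under the exchange of the coordinates and under
negation are determined by the multiplicities of the pairs `(a, b)` with `|b| ≤ a`.
-/

set_option autoImplicit false

namespace Pool.Agent.TH429.GI

open Finset

noncomputable section

/-- The pairs `(|t|, t)` with `|t| ≤ m`. -/
def R1 (m : ℕ) : Finset (ℤ × ℤ) := (Finset.Icc (-(m : ℤ)) m).image fun t => (|t|, t)

/-- The pairs `(a, b)` with `|b| < a ≤ m`. -/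
def R2 (m : ℕ) : Finset (ℤ × ℤ) :=
  (Finset.Icc (1 : ℤ) m).biUnion fun a => (Finset.Ioo (-a) a).image fun b => (a, b)

theorem mem_R1 (m : ℕ) (r : ℤ × ℤ) : r ∈ R1 m ↔ r.1 = |r.2| ∧ r.1 ≤ m := by
  unfold R1
  rw [Finset.mem_image]
  constructor
  · rintro ⟨t, ht, rfl⟩
    rw [Finset.mem_Icc] at ht
    exact ⟨rfl, abs_le.2 ht⟩
  · rintro ⟨h1, h2⟩
    refine ⟨r.2, ?_, ?_⟩
    · rw [Finset.mem_Icc]
      rw [h1] at h2
      exact abs_le.1 h2
    · ext
      · exact h1.symm
      · rfl

theorem mem_R2 (m : ℕ) (r : ℤ × ℤ) : r ∈ R2 m ↔ |r.2| < r.1 ∧ r.1 ≤ m := by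
  unfold R2
  rw [Finset.mem_biUnion]
  constructor
  · rintro ⟨a, ha, hr⟩
    rw [Finset.mem_image] at hr
    obtain ⟨b, hb, rfl⟩ := hr
    rw [Finset.mem_Icc] at ha
    rw [Finset.mem_Ioo] at hb
    exact ⟨abs_lt.2 hb, ha.2⟩
  · rintro ⟨h1, h2⟩
    have h3 : 0 ≤ |r.2| := abs_nonneg _
    refine ⟨r.1, ?_, ?_⟩
    · rw [Finset.mem_Icc]
      exact ⟨by omega, h2⟩
    · rw [Finset.mem_image]
      refine ⟨r.2, ?_, rfl⟩
      rw [Finset.mem_Ioo]
      exact abs_lt.1 h1

theorem card_R1 (m : ℕ) : (R1 m).card = 2 * m + 1 := by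
  unfold R1
  rw [Finset.card_image_of_injective]
  · rw [Int.card_Icc]; omega
  · intro s t h
    simpa using (Prod.ext_iff.1 h).2

theorem card_R2 (m : ℕ) : (R2 m).card = m ^ 2 := by
  induction m with
  | zero =>
    rw [show (0 : ℕ) ^ 2 = 0 from rfl, Finset.card_eq_zero, Finset.eq_empty_iff_forall_notMem]
    intro r hr
    rw [mem_R2] at hr
    have := abs_nonneg r.2
    have h2 := hr.1
    have h3 := hr.2
    push_cast at h3
    omega
  | succ m ih =>
    have h : R2 (m + 1) = R2 m ∪
        (Finset.Ioo (-((m : ℤ) + 1)) (m + 1)).image fun b => ((m : ℤ) + 1, b) := by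
      ext r
      rw [Finset.mem_union, mem_R2, mem_R2, Finset.mem_image]
      constructor
      · rintro ⟨h1, h2⟩
        rcases eq_or_lt_of_le h2 with he | hl
        · right
          push_cast at he
          refine ⟨r.2, ?_, ?_⟩
          · rw [Finset.mem_Ioo]
            rw [he] at h1
            exact abs_lt.1 h1
          · ext
            · exact he.symm
            · rfl
        · left
          push_cast at hl
          exact ⟨h1, by omega⟩
      · rintro (⟨h1, h2⟩ | ⟨b, hb, rfl⟩)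
        · exact ⟨h1, by push_cast; omega⟩
        · rw [Finset.mem_Ioo] at hb
          exact ⟨abs_lt.2 hb, by push_cast; exact le_rfl⟩
    rw [h, Finset.card_union_of_disjoint, ih, Finset.card_image_of_injective, Int.card_Ioo]
    · have : ((m : ℤ) + 1 - -((m : ℤ) + 1) - 1).toNat = 2 * m + 1 := by omega
      rw [this]; ring
    · intro s t h
      simpa using (Prod.ext_iff.1 h).2
    · rw [Finset.disjoint_left]
      intro r hr hr2
      rw [mem_R2] at hr
      rw [Finset.mem_image] at hr2
      obtain ⟨b, _, rfl⟩ := hr2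
      have := hr.2
      simp only at this
      omega

theorem disj (m : ℕ) : Disjoint (R1 m) (R2 m) := by
  rw [Finset.disjoint_left]
  intro r h1 h2
  rw [mem_R1] at h1
  rw [mem_R2] at h2
  rw [h1.1] at h2
  exact lt_irrefl _ h2.1

/-- All representatives. -/
def RR (m : ℕ) : Finset (ℤ × ℤ) := R1 m ∪ R2 m

theorem mem_RR (m : ℕ) (r : ℤ × ℤ) : r ∈ RR m ↔ |r.2| ≤ r.1 ∧ r.1 ≤ m := by
  unfold RR
  rw [Finset.mem_union, mem_R1, mem_R2]
  constructor
  · rintro (⟨h1, h2⟩ | ⟨h1, h2⟩)
    · exact ⟨h1.ge, h2⟩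
    · exact ⟨h1.le, h2⟩
  · rintro ⟨h1, h2⟩
    rcases eq_or_lt_of_le h1 with h | h
    · left; exact ⟨h.symm, h2⟩
    · right; exact ⟨h, h2⟩

/-- The negation. -/
def ng (x : ℤ × ℤ) : ℤ × ℤ := (-x.1, -x.2)

theorem ng_ng (x : ℤ × ℤ) : ng (ng x) = x := by simp [ng]

theorem ng_inj : Function.Injective ng := fun x y h => by
  rw [← ng_ng x, h, ng_ng]

/-- The representative of the orbit of a pair. -/
def cls (x : ℤ × ℤ) : ℤ × ℤ :=
  if x.2 ≤ x.1 ∧ -x.2 ≤ x.1 then x
  else if x.1 ≤ x.2 ∧ -x.1 ≤ x.2 then x.swap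
  else if x.2 ≤ -x.1 ∧ -x.2 ≤ -x.1 then ng x
  else ng x.swap

/-- The weight of a representative: half the size of the orbit (`1` for `(0, 0)`). -/
def wt (r : ℤ × ℤ) : ℕ := if |r.2| < r.1 then 2 else 1

/-- The multiplicity of the representative in the elementary symmetric multiset. -/
def mu (r : ℤ × ℤ) : ℕ := if r = (0, 0) then 2 else 1

/-- The elementary symmetric multisets. -/
def con (r : ℤ × ℤ) : Multiset (ℤ × ℤ) :=
  if |r.2| < r.1 then {r, ng r} + {r.swap, ng r.swap} else {r, ng r}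

theorem wt_pos (r : ℤ × ℤ) : 0 < wt r := by unfold wt; split_ifs <;> norm_num

theorem mu_pos (r : ℤ × ℤ) : 0 < mu r := by unfold mu; split_ifs <;> norm_num

theorem card_con (r : ℤ × ℤ) : (con r).card = 2 * wt r := by
  unfold con wt
  split_ifs <;> simp

theorem count_pair (x y z : ℤ × ℤ) :
    Multiset.count x ({y, z} : Multiset (ℤ × ℤ)) =
      (if x = y then 1 else 0) + (if x = z then 1 else 0) := by
  have : ({y, z} : Multiset (ℤ × ℤ)) = y ::ₘ {z} := rfl
  rw [this, Multiset.count_cons, Multiset.count_singleton]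
  ring

theorem cls_mem {x : ℤ × ℤ} {m : ℕ} (h1 : |x.1| ≤ m) (h2 : |x.2| ≤ m) : cls x ∈ RR m := by
  rw [mem_RR, abs_le]
  rw [abs_le] at h1 h2
  unfold cls ng
  obtain ⟨a, b⟩ := x
  simp only [Prod.swap] at *
  split_ifs <;> simp only <;> omega

theorem cls_eq {x r : ℤ × ℤ} (hr : |r.2| ≤ r.1) :
    cls x = r ↔ x = r ∨ x = ng r ∨ x = r.swap ∨ x = ng r.swap := by
  obtain ⟨a, b⟩ := x
  obtain ⟨c, d⟩ := r
  rw [abs_le] at hr
  simp only at hr
  unfold cls ng
  simp only [Prod.swap, Prod.mk.injEq]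
  split_ifs <;> simp only [Prod.mk.injEq] <;> omega

theorem count_con (x r : ℤ × ℤ) (hr : |r.2| ≤ r.1) :
    Multiset.count x (con r) = if cls x = r then mu r else 0 := by
  simp only [cls_eq hr]
  obtain ⟨a, b⟩ := x
  obtain ⟨c, d⟩ := r
  rw [abs_le] at hr
  simp only at hr
  unfold con
  simp only [abs_lt]
  by_cases h : -c < d ∧ d < c
  · rw [if_pos h, Multiset.count_add, count_pair, count_pair]
    unfold mu ng
    simp only [Prod.swap, Prod.mk.injEq]
    have h0 : ¬ (c = 0 ∧ d = 0) := by omega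
    rw [if_neg h0]
    by_cases e1 : a = c ∧ b = d
    · have e2 : ¬ (a = -c ∧ b = -d) := by omega
      have e3 : ¬ (a = d ∧ b = c) := by omega
      have e4 : ¬ (a = -d ∧ b = -c) := by omega
      rw [if_pos e1, if_neg e2, if_neg e3, if_neg e4, if_pos (Or.inl e1)]
    · by_cases e2 : a = -c ∧ b = -d
      · have e3 : ¬ (a = d ∧ b = c) := by omega
        have e4 : ¬ (a = -d ∧ b = -c) := by omega
        rw [if_neg e1, if_pos e2, if_neg e3, if_neg e4, if_pos (Or.inr (Or.inl e2))]
      · by_cases e3 : a = d ∧ b = c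
        · have e4 : ¬ (a = -d ∧ b = -c) := by omega
          rw [if_neg e1, if_neg e2, if_pos e3, if_neg e4, if_pos (Or.inr (Or.inr (Or.inl e3)))]
        · by_cases e4 : a = -d ∧ b = -c
          · rw [if_neg e1, if_neg e2, if_neg e3, if_pos e4,
              if_pos (Or.inr (Or.inr (Or.inr e4)))]
          · rw [if_neg e1, if_neg e2, if_neg e3, if_neg e4,
              if_neg (by rintro (h | h | h | h) <;> contradiction)]
  · rw [if_neg h, count_pair]
    unfold mu ng
    simp only [Prod.swap, Prod.mk.injEq]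
    split_ifs <;> omega

/-- Invariance under the two symmetries. -/
structure Sy (S : Multiset (ℤ × ℤ)) : Prop where
  sw : S.map Prod.swap = S
  ne : S.map ng = S

theorem Sy.count_swap {S : Multiset (ℤ × ℤ)} (h : Sy S) (x : ℤ × ℤ) :
    S.count x.swap = S.count x := by
  conv_lhs => rw [← h.sw]
  exact Multiset.count_map_eq_count' _ _ Prod.swap_injective _

theorem Sy.count_ng {S : Multiset (ℤ × ℤ)} (h : Sy S) (x : ℤ × ℤ) :
    S.count (ng x) = S.count x := by
  conv_lhs => rw [← h.ne]
  exact Multiset.count_map_eq_count' _ _ ng_inj _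

theorem Sy.count_cls {S : Multiset (ℤ × ℤ)} (h : Sy S) (x : ℤ × ℤ) :
    S.count (cls x) = S.count x := by
  unfold cls
  split_ifs
  · rfl
  · exact h.count_swap x
  · exact h.count_ng x
  · rw [h.count_ng, h.count_swap]

theorem cons_single {α : Type*} (x y : α) : x ::ₘ ({y} : Multiset α) = y ::ₘ {x} :=
  Multiset.cons_swap _ _ _

theorem Sy_con {r : ℤ × ℤ} (hr : |r.2| ≤ r.1) : Sy (con r) := by
  obtain ⟨c, d⟩ := r
  simp only at hr
  constructor
  · unfold con
    split_ifs with h
    · simp only [Multiset.map_add, Multiset.insert_eq_cons, Multiset.map_cons,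
        Multiset.map_singleton, Prod.swap_swap]
      have e1 : Prod.swap (ng (c, d)) = ng (Prod.swap (c, d)) := rfl
      have e2 : Prod.swap (ng (Prod.swap (c, d))) = ng (c, d) := rfl
      rw [e1, e2, add_comm]
    · simp only at h
      have hc : c = |d| := by omega
      rcases abs_cases d with hd | hd
      · have : c = d := by omega
        subst this
        simp [ng]
      · have : c = -d := by omega
        subst this
        simp only [Multiset.insert_eq_cons, Multiset.map_cons, Multiset.map_singleton, ng,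
          Prod.swap, neg_neg]
        exact Multiset.cons_swap _ _ _
  · unfold con
    split_ifs with h
    · simp only [Multiset.map_add, Multiset.insert_eq_cons, Multiset.map_cons,
        Multiset.map_singleton, ng_ng]
      rw [cons_single (ng (c, d)) (c, d), cons_single (ng (Prod.swap (c, d))) (Prod.swap (c, d))]
    · simp only [Multiset.insert_eq_cons, Multiset.map_cons,
        Multiset.map_singleton, ng_ng]
      exact Multiset.cons_swap _ _ _

/-- The multiset with given multiplicities. -/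
def SS (m : ℕ) (l : ℤ × ℤ →₀ ℕ) : Multiset (ℤ × ℤ) := ∑ r ∈ RR m, (l r / wt r) • con r

/-- The admissible functions. -/
def LL (n m : ℕ) : Finset (ℤ × ℤ →₀ ℕ) :=
  ((RR m).finsuppAntidiag n).filter (fun l => ∀ r ∈ R2 m, 2 ∣ l r)

theorem Sy_SS (m : ℕ) (l : ℤ × ℤ →₀ ℕ) : Sy (SS m l) := by
  unfold SS
  have key : ∀ s : Finset (ℤ × ℤ), s ⊆ RR m → Sy (∑ r ∈ s, (l r / wt r) • con r) := by
    intro s
    induction s using Finset.induction_on with
    | empty => intro _; exact ⟨by simp, by simp⟩
    | insert r s hrs ih =>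
      intro hs
      rw [Finset.sum_insert hrs]
      have h1 := ih (fun x hx => hs (Finset.mem_insert_of_mem hx))
      have h2 := Sy_con ((mem_RR m r).1 (hs (Finset.mem_insert_self _ _))).1
      constructor
      · rw [Multiset.map_add, h1.sw, Multiset.map_nsmul, h2.sw]
      · rw [Multiset.map_add, h1.ne, Multiset.map_nsmul, h2.ne]
  exact key _ (Finset.Subset.refl _)

theorem count_SS (m : ℕ) (l : ℤ × ℤ →₀ ℕ) (x : ℤ × ℤ) :
    (SS m l).count x = if cls x ∈ RR m then l (cls x) / wt (cls x) * mu (cls x) else 0 := by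
  unfold SS
  rw [Multiset.count_sum']
  have h : ∀ r ∈ RR m, Multiset.count x ((l r / wt r) • con r) =
      if cls x = r then l (cls x) / wt (cls x) * mu (cls x) else 0 := by
    intro r hr
    rw [Multiset.count_nsmul, count_con x r ((mem_RR m r).1 hr).1]
    by_cases h : cls x = r
    · rw [if_pos h, if_pos h, h]
    · rw [if_neg h, if_neg h, mul_zero]
  rw [Finset.sum_congr rfl h, Finset.sum_ite_eq]

theorem wt_dvd {n m : ℕ} {l : ℤ × ℤ →₀ ℕ} (hl : l ∈ LL n m) (r : ℤ × ℤ) (hr : r ∈ RR m) :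
    wt r ∣ l r := by
  unfold LL at hl
  rw [Finset.mem_filter] at hl
  unfold wt
  split_ifs with h
  · exact hl.2 r ((mem_R2 m r).2 ⟨h, ((mem_RR m r).1 hr).2⟩)
  · exact one_dvd _

theorem card_SS {n m : ℕ} {l : ℤ × ℤ →₀ ℕ} (hl : l ∈ LL n m) : (SS m l).card = 2 * n := by
  unfold SS
  rw [Multiset.card_sum]
  have h : ∀ r ∈ RR m, Multiset.card ((l r / wt r) • con r) = 2 * l r := by
    intro r hr
    rw [Multiset.card_nsmul, card_con]
    obtain ⟨c, hc⟩ := wt_dvd hl r hr
    rw [hc, Nat.mul_div_cancel_left _ (wt_pos r)]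
    ring
  rw [Finset.sum_congr rfl h, ← Finset.mul_sum]
  congr 1
  unfold LL at hl
  rw [Finset.mem_filter, Finset.mem_finsuppAntidiag] at hl
  exact hl.1.1

theorem SS_inj {n m : ℕ} : Set.InjOn (SS m) (LL n m : Set (ℤ × ℤ →₀ ℕ)) := by
  intro l hl l' hl' h
  rw [Finset.mem_coe] at hl hl'
  ext r
  by_cases hr : r ∈ RR m
  · have h1 := congrArg (Multiset.count r) h
    rw [count_SS, count_SS] at h1
    have hc : cls r = r := by
      have := (mem_RR m r).1 hr
      have h0 : 0 ≤ |r.2| := abs_nonneg _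
      rw [cls_eq this.1]
      exact Or.inl rfl
    rw [hc, if_pos hr, if_pos hr] at h1
    have h2 := Nat.eq_of_mul_eq_mul_right (mu_pos r) h1
    obtain ⟨c, hc⟩ := wt_dvd hl r hr
    obtain ⟨c', hc'⟩ := wt_dvd hl' r hr
    rw [hc, hc', Nat.mul_div_cancel_left _ (wt_pos r), Nat.mul_div_cancel_left _ (wt_pos r)] at h2
    rw [hc, hc', h2]
  · unfold LL at hl hl'
    rw [Finset.mem_filter, Finset.mem_finsuppAntidiag] at hl hl'
    have e1 : l r = 0 := by
      by_contra hne
      exact hr (hl.1.2 (Finsupp.mem_support_iff.2 hne))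
    have e2 : l' r = 0 := by
      by_contra hne
      exact hr (hl'.1.2 (Finsupp.mem_support_iff.2 hne))
    rw [e1, e2]

theorem SS_bound {m : ℕ} {l : ℤ × ℤ →₀ ℕ} {x : ℤ × ℤ} (hx : x ∈ SS m l) : |x.1| ≤ m := by
  have h := Multiset.count_pos.2 hx
  rw [count_SS] at h
  have hc : cls x ∈ RR m := by
    by_contra hc
    rw [if_neg hc] at h
    exact lt_irrefl _ h
  rw [mem_RR, abs_le] at hc
  rw [abs_le]
  obtain ⟨a, b⟩ := x
  revert hc
  unfold cls ng
  simp only [Prod.swap]
  split_ifs <;> simp only <;> intro hc <;> omega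

theorem even_zero {S : Multiset (ℤ × ℤ)} (h : Sy S) {n : ℕ} (hn : S.card = 2 * n) :
    2 ∣ S.count (0, 0) := by
  -- split according to the position in the lexicographic order
  have h1 : S.card = (S.filter fun x => x = (0, 0)).card +
      ((S.filter fun x => 0 < x.1 ∨ (x.1 = 0 ∧ 0 < x.2)).card +
        (S.filter fun x => x.1 < 0 ∨ (x.1 = 0 ∧ x.2 < 0)).card) := by
    have e := Multiset.filter_add_not (fun x : ℤ × ℤ => x = (0, 0)) S
    have e2 := Multiset.filter_add_not (fun x : ℤ × ℤ => 0 < x.1 ∨ (x.1 = 0 ∧ 0 < x.2))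
      (S.filter fun x => ¬ x = (0, 0))
    conv_lhs => rw [← e, ← e2]
    rw [Multiset.card_add, Multiset.card_add, Multiset.filter_filter, Multiset.filter_filter]
    congr 2
    · congr 1
      apply Multiset.filter_congr
      rintro ⟨a, b⟩ _
      simp only [Prod.mk.injEq]
      omega
    · congr 1
      apply Multiset.filter_congr
      rintro ⟨a, b⟩ _
      simp only [Prod.mk.injEq]
      omega
  have h2 : (S.filter fun x => 0 < x.1 ∨ (x.1 = 0 ∧ 0 < x.2)).card =
      (S.filter fun x => x.1 < 0 ∨ (x.1 = 0 ∧ x.2 < 0)).card := by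
    conv_lhs => rw [← h.ne]
    rw [Multiset.filter_map, Multiset.card_map]
    congr 1
    apply Multiset.filter_congr
    rintro ⟨a, b⟩ _
    simp only [Function.comp, ng]
    omega
  have h3 : (S.filter fun x => x = (0, 0)).card = S.count (0, 0) := by
    rw [Multiset.count_eq_card_filter_eq]
    congr 1
    apply Multiset.filter_congr
    intro x _
    exact eq_comm
  rw [← h3]
  omega

theorem exists_LL {n m : ℕ} {S : Multiset (ℤ × ℤ)} (h : Sy S) (hn : S.card = 2 * n)
    (hb : ∀ x ∈ S, |x.1| ≤ m) : ∃ l ∈ LL n m, SS m l = S := by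
  have hb2 : ∀ x ∈ S, |x.2| ≤ m := by
    intro x hx
    have : x.swap ∈ S := by
      rw [← h.sw]
      exact Multiset.mem_map_of_mem _ hx
    exact hb _ this
  set g : ℤ × ℤ → ℕ := fun r => if r ∈ RR m then wt r * (S.count r / mu r) else 0 with hg
  set l : ℤ × ℤ →₀ ℕ := Finsupp.onFinset (RR m) g (by
    intro r hr
    by_contra hne
    exact hr (by simp only [hg]; rw [if_neg hne])) with hldef
  have hl : ∀ r, l r = g r := fun r => rfl
  have hcount : ∀ x, (SS m l).count x = S.count x := by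
    intro x
    rw [count_SS]
    by_cases hx : cls x ∈ RR m
    · rw [if_pos hx, hl]
      simp only [hg]
      rw [if_pos hx, Nat.mul_div_cancel_left _ (wt_pos _), Nat.div_mul_cancel, h.count_cls]
      unfold mu
      split_ifs with h0
      · rw [h0]; exact even_zero h hn
      · exact one_dvd _
    · rw [if_neg hx]
      symm
      rw [Multiset.count_eq_zero]
      intro hxS
      exact hx (cls_mem (hb x hxS) (hb2 x hxS))
  have hSS : SS m l = S := Multiset.ext.2 hcount
  refine ⟨l, ?_, hSS⟩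
  unfold LL
  rw [Finset.mem_filter, Finset.mem_finsuppAntidiag]
  have hdvd : ∀ r ∈ R2 m, 2 ∣ l r := by
    intro r hr
    rw [hl]
    simp only [hg]
    have hw : wt r = 2 := by
      unfold wt
      rw [if_pos ((mem_R2 m r).1 hr).1]
    split_ifs
    · rw [hw]; exact dvd_mul_right _ _
    · exact dvd_zero _
  refine ⟨⟨?_, ?_⟩, hdvd⟩
  · have h1 : (SS m l).card = 2 * ∑ r ∈ RR m, l r := by
      unfold SS
      rw [Multiset.card_sum, Finset.mul_sum]
      apply Finset.sum_congr rfl
      intro r hr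
      rw [Multiset.card_nsmul, card_con, hl]
      simp only [hg]
      rw [if_pos hr, Nat.mul_div_cancel_left _ (wt_pos r)]
      ring
    rw [hSS, hn] at h1
    exact (Nat.eq_of_mul_eq_mul_left (by norm_num) h1).symm
  · intro r hr
    rw [Finsupp.mem_support_iff] at hr
    by_contra hne
    apply hr
    rw [hl]
    simp only [hg]
    rw [if_neg hne]

end

end Pool.Agent.TH429.GI
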