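import Pool.Agent.TH429.GI.Sorted
import Pool.Agent.TH429.GI.Count
import Pool.Agent.TH429.GI.Orb

/-!
# Signed involutions and symmetric multisets
-/

set_option autoImplicit false

namespace Pool.Agent.TH429.GI

open Finset

/-- The position of the signed letter `±(i + 1)` (`true` is the minus sign) among all signed
letters. -/
def E (n : ℕ) (x : Fin n × Bool) : Fin (2 * n) :=
  if x.2 then ⟨n - 1 - x.1, by omega⟩ else ⟨n + x.1, by omega⟩

/-- The inverse of `E`. -/
def D (n : ℕ) (k : Fin (2 * n)) : Fin n × Bool :=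
  if h : (k : ℕ) < n then (⟨n - 1 - k, by omega⟩, true) else (⟨k - n, by omega⟩, false)

theorem D_E (n : ℕ) (x : Fin n × Bool) : D n (E n x) = x := by
  obtain ⟨i, b⟩ := x
  cases b
  · unfold E D
    have h : ¬ (n + (i : ℕ) < n) := by omega
    simp only [Bool.false_eq_true, if_false, h, dif_neg, not_false_iff]
    ext
    · simp
    · rfl
  · unfold E D
    have h : n - 1 - (i : ℕ) < n := by omega
    simp only [if_true, h, dif_pos]
    ext
    · simp only; omega
    · rfl

theorem E_D (n : ℕ) (k : Fin (2 * n)) : E n (D n k) = k := by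
  unfold D
  split_ifs with h
  · unfold E
    simp only [if_true]
    ext
    simp only
    omega
  · unfold E
    simp only [Bool.false_eq_true, if_false]
    ext
    simp only
    omega

/-- The bijection between signed letters and positions. -/
def EE (n : ℕ) : Fin n × Bool ≃ Fin (2 * n) := ⟨E n, D n, D_E n, E_D n⟩

theorem E_inj {n : ℕ} {x y : Fin n × Bool} (h : E n x = E n y) : x = y := (EE n).injective h

/-- The value of a signed letter. -/
def sval {n : ℕ} (x : Fin n × Bool) : ℤ := (if x.2 then (-1 : ℤ) else 1) * (((x.1 : ℕ) : ℤ) + 1)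

theorem E_lt {n : ℕ} (x y : Fin n × Bool) : E n x < E n y ↔ sval x < sval y := by
  obtain ⟨i, b⟩ := x
  obtain ⟨j, c⟩ := y
  have hi := i.isLt
  have hj := j.isLt
  unfold E sval
  rw [Fin.lt_def]
  cases b <;> cases c <;> simp only [Bool.false_eq_true, if_false, if_true] <;> omega

theorem E_rev {n : ℕ} (i : Fin n) (b : Bool) : (E n (i, b)).rev = E n (i, !b) := by
  have hi := i.isLt
  unfold E
  cases b <;> ext <;> simp [Fin.rev] <;> omega

theorem sval_not {n : ℕ} (i : Fin n) (b : Bool) : sval (i, !b) = - sval (i, b) := by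
  unfold sval
  cases b <;> simp

theorem sval_xor {n : ℕ} (i : Fin n) (b c : Bool) :
    sval (i, xor b c) = (if b then -1 else 1) * sval (i, c) := by
  cases b
  · simp
  · simp only [Bool.true_bne, if_true]
    rw [sval_not]; ring

theorem sval_pos {n : ℕ} (i : Fin n) : 0 < sval (i, false) := by
  unfold sval
  simp only [Bool.false_eq_true, if_false]
  omega

/-- The action of a signed permutation on the signed letters. -/
def PL {n : ℕ} (w : Equiv.Perm (Fin n) × (Fin n → Bool)) : Equiv.Perm (Fin n × Bool) where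
  toFun x := (w.1 x.1, xor x.2 (w.2 x.1))
  invFun x := (w.1⁻¹ x.1, xor x.2 (w.2 (w.1⁻¹ x.1)))
  left_inv x := by
    have h : w.1⁻¹ (w.1 x.1) = x.1 := by
      have := papply w.1⁻¹ x.1
      rwa [inv_inv] at this
    simp only [h]
    ext
    · rfl
    · simp
  right_inv x := by
    simp only [papply]
    ext
    · rfl
    · simp

/-- The corresponding permutation of positions. -/
def W {n : ℕ} (w : Equiv.Perm (Fin n) × (Fin n → Bool)) : Equiv.Perm (Fin (2 * n)) :=
  ((EE n).symm.trans (PL w)).trans (EE n)

theorem W_E {n : ℕ} (w : Equiv.Perm (Fin n) × (Fin n → Bool)) (i : Fin n) (b : Bool) :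
    W w (E n (i, b)) = E n (w.1 i, xor b (w.2 i)) := by
  show E n (PL w (D n (E n (i, b)))) = _
  rw [D_E]
  rfl

/-- The labels of the positions. -/
def FF {n : ℕ} (f : Fin n → ℕ) (k : Fin (2 * n)) : ℤ :=
  if (D n k).2 then - (f (D n k).1 : ℤ) else (f (D n k).1 : ℤ)

theorem FF_E {n : ℕ} (f : Fin n → ℕ) (i : Fin n) (b : Bool) :
    FF f (E n (i, b)) = if b then - (f i : ℤ) else (f i : ℤ) := by
  unfold FF
  rw [D_E]

theorem FF_rev {n : ℕ} (f : Fin n → ℕ) (k : Fin (2 * n)) : FF f k.rev = - FF f k := by
  obtain ⟨⟨i, b⟩, rfl⟩ := (EE n).surjective k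
  show FF f (E n (i, b)).rev = - FF f (E n (i, b))
  rw [E_rev, FF_E, FF_E]
  cases b <;> simp

theorem W_rev {n : ℕ} (w : Equiv.Perm (Fin n) × (Fin n → Bool)) (k : Fin (2 * n)) :
    W w k.rev = (W w k).rev := by
  obtain ⟨⟨i, b⟩, rfl⟩ := (EE n).surjective k
  show W w (E n (i, b)).rev = (W w (E n (i, b))).rev
  rw [E_rev, W_E, W_E, E_rev]
  cases b <;> simp

/-- The signed involutions. -/
def IsInv {n : ℕ} (w : Equiv.Perm (Fin n) × (Fin n → Bool)) : Prop :=
  ∀ i : Fin n, w.1 (w.1 i) = i ∧ w.2 (w.1 i) = w.2 i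

/-- Compatibility of a labelling with a signed permutation. -/
structure CC {n : ℕ} (w : Equiv.Perm (Fin n) × (Fin n → Bool)) (f : Fin n → ℕ) : Prop where
  mono : ∀ i j, i ≤ j → f i ≤ f j
  incr : ∀ i j, i < j → f i = f j → sval (w.1 i, w.2 i) < sval (w.1 j, w.2 j)
  zero : ∀ i, f i = 0 → w.2 i = false

theorem comp_of {n : ℕ} {w : Equiv.Perm (Fin n) × (Fin n → Bool)} {f : Fin n → ℕ}
    (hw : IsInv w) (h : CC w f) : Comp (W w) (FF f) where
  inv := by
    intro k
    obtain ⟨⟨i, b⟩, rfl⟩ := (EE n).surjective k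
    show W w (W w (E n (i, b))) = E n (i, b)
    rw [W_E, W_E, (hw i).1, (hw i).2]
    cases b <;> cases w.2 i <;> rfl
  mono := by
    intro k l hkl
    obtain ⟨⟨i, b⟩, rfl⟩ := (EE n).surjective k
    obtain ⟨⟨j, c⟩, rfl⟩ := (EE n).surjective l
    change E n (i, b) ≤ E n (j, c) at hkl
    show FF f (E n (i, b)) ≤ FF f (E n (j, c))
    rw [← not_lt, E_lt, not_lt] at hkl
    rw [FF_E, FF_E]
    unfold sval at hkl
    cases b <;> cases c <;> simp only [Bool.false_eq_true, if_false, if_true] at *
    · have : i ≤ j := by rw [Fin.le_def]; omega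
      exact_mod_cast h.mono i j this
    · omega
    · omega
    · have : j ≤ i := by rw [Fin.le_def]; omega
      have := h.mono j i this
      omega
  incr := by
    intro k l hkl he
    obtain ⟨⟨i, b⟩, rfl⟩ := (EE n).surjective k
    obtain ⟨⟨j, c⟩, rfl⟩ := (EE n).surjective l
    change E n (i, b) < E n (j, c) at hkl
    change FF f (E n (i, b)) = FF f (E n (j, c)) at he
    show W w (E n (i, b)) < W w (E n (j, c))
    rw [FF_E, FF_E] at he
    rw [E_lt] at hkl
    rw [W_E, W_E, E_lt, sval_xor, sval_xor]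
    unfold sval at hkl
    cases b <;> cases c <;> simp only [Bool.false_eq_true, if_false, if_true] at *
    · have h1 : i < j := by rw [Fin.lt_def]; omega
      have := h.incr i j h1 (by exact_mod_cast he)
      linarith
    · omega
    · have h1 : f i = 0 := by omega
      have h2 : f j = 0 := by omega
      rw [h.zero i h1, h.zero j h2]
      have h3 := sval_pos (w.1 i)
      have h4 := sval_pos (w.1 j)
      linarith
    · have h1 : j < i := by rw [Fin.lt_def]; omega
      have := h.incr j i h1 (by omega)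
      linarith

theorem of_comp {n : ℕ} {w' : Equiv.Perm (Fin (2 * n))} {F' : Fin (2 * n) → ℤ}
    (h : Comp w' F') (hw : ∀ k, w' k.rev = (w' k).rev) (hF : ∀ k, F' k.rev = - F' k) :
    ∃ (w : Equiv.Perm (Fin n) × (Fin n → Bool)) (f : Fin n → ℕ), IsInv w ∧ CC w f ∧
      W w = w' ∧ FF f = F' := by
  set g : Fin n → Fin n × Bool := fun i => D n (w' (E n (i, false))) with hg
  have h0 : ∀ i, w' (E n (i, false)) = E n (g i) := fun i => (E_D n _).symm
  have h1 : ∀ i b, w' (E n (i, b)) = E n ((g i).1, xor b (g i).2) := by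
    intro i b
    cases b
    · rw [h0]; simp
    · have : E n (i, true) = (E n (i, false)).rev := by rw [E_rev]; rfl
      rw [this, hw, h0]
      have : g i = ((g i).1, (g i).2) := rfl
      rw [this, E_rev]
      simp
  have h2 : ∀ i, (g (g i).1).1 = i ∧ (g (g i).1).2 = (g i).2 := by
    intro i
    have e1 := h.inv (E n (i, false))
    rw [h1, h1] at e1
    have e2 := E_inj e1
    have e3 := congrArg Prod.fst e2
    have e4 := congrArg Prod.snd e2
    simp only at e3 e4
    refine ⟨e3, ?_⟩
    revert e4
    cases (g i).2 <;> cases (g (g i).1).2 <;> simp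
  set σ : Equiv.Perm (Fin n) := Function.Involutive.toPerm (fun i => (g i).1)
    (fun i => (h2 i).1) with hσ
  have hσa : ∀ i, σ i = (g i).1 := fun i => rfl
  set f : Fin n → ℕ := fun i => (F' (E n (i, false))).toNat with hf
  have hpos : ∀ i, 0 ≤ F' (E n (i, false)) := by
    intro i
    have e1 : (E n (i, false)).rev ≤ E n (i, false) := by
      rw [E_rev]
      apply le_of_lt
      rw [E_lt]
      simp only [Bool.not_false]
      have : sval (i, true) = - sval (i, false) := sval_not i false
      rw [this]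
      have := sval_pos i
      linarith
    have e2 := h.mono e1
    rw [hF] at e2
    linarith
  have hfa : ∀ i, (f i : ℤ) = F' (E n (i, false)) := fun i => Int.toNat_of_nonneg (hpos i)
  refine ⟨(σ, fun i => (g i).2), f, ?_, ⟨?_, ?_, ?_⟩, ?_, ?_⟩
  · intro i
    exact h2 i
  · intro i j hij
    have : E n (i, false) ≤ E n (j, false) := by
      rw [← not_lt, E_lt, not_lt]
      unfold sval
      simp only [Bool.false_eq_true, if_false]
      have := Fin.le_def.1 hij
      omega
    have := h.mono this
    rw [← hfa, ← hfa] at this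
    exact_mod_cast this
  · intro i j hij he
    have e1 : E n (i, false) < E n (j, false) := by
      rw [E_lt]
      unfold sval
      simp only [Bool.false_eq_true, if_false]
      have := Fin.lt_def.1 hij
      omega
    have e2 : F' (E n (i, false)) = F' (E n (j, false)) := by
      rw [← hfa, ← hfa, he]
    have e3 := h.incr _ _ e1 e2
    rw [h0, h0, E_lt] at e3
    exact e3
  · intro i hi
    have e0 : F' (E n (i, false)) = 0 := by rw [← hfa, hi]; rfl
    have e1 : E n (i, true) = (E n (i, false)).rev := by rw [E_rev]; rfl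
    have e2 : F' (E n (i, true)) = F' (E n (i, false)) := by
      rw [e1, hF, e0]; rfl
    have e3 : E n (i, true) < E n (i, false) := by
      rw [E_lt]
      have : sval (i, true) = - sval (i, false) := sval_not i false
      rw [this]
      have := sval_pos i
      linarith
    have e4 := h.incr _ _ e3 e2
    rw [h1, h1, E_lt] at e4
    show (g i).2 = false
    by_contra hne
    have e5 : (g i).2 = true := by simpa using hne
    rw [e5] at e4
    have e6 := sval_pos (g i).1
    have e7 : sval ((g i).1, true) = - sval ((g i).1, false) := sval_not _ false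
    have e8 : sval ((g i).1, false) < sval ((g i).1, true) := e4
    rw [e7] at e8
    linarith
  · apply Equiv.ext
    intro k
    obtain ⟨⟨i, b⟩, rfl⟩ := (EE n).surjective k
    show W _ (E n (i, b)) = w' (E n (i, b))
    rw [W_E, h1]
    rfl
  · funext k
    obtain ⟨⟨i, b⟩, rfl⟩ := (EE n).surjective k
    show FF f (E n (i, b)) = F' (E n (i, b))
    rw [FF_E, hfa]
    cases b
    · simp
    · have : E n (i, true) = (E n (i, false)).rev := by rw [E_rev]; rfl
      rw [this, hF]
      simp

theorem W_inj {n : ℕ} {w w' : Equiv.Perm (Fin n) × (Fin n → Bool)} (h : W w = W w') : w = w' := by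
  have h1 : ∀ i, (w.1 i, w.2 i) = (w'.1 i, w'.2 i) := by
    intro i
    have : W w (E n (i, false)) = W w' (E n (i, false)) := by rw [h]
    rw [W_E, W_E] at this
    have := E_inj this
    simpa using this
  ext i
  · exact congrArg (fun x => ((x.1 : Fin n) : ℕ)) (h1 i)
  · exact congrArg (fun x => x.2) (h1 i)

theorem FF_inj {n : ℕ} {f f' : Fin n → ℕ} (h : FF f = FF f') : f = f' := by
  funext i
  have := congrFun h (E n (i, false))
  rw [FF_E, FF_E] at this
  simpa using this

theorem Sy_pairs {n : ℕ} {w : Equiv.Perm (Fin n) × (Fin n → Bool)} {f : Fin n → ℕ}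
    (hw : IsInv w) (h : CC w f) : Sy (pairs (W w) (FF f)) := by
  have hc := comp_of hw h
  constructor
  · unfold pairs
    rw [map_vals]
    rw [← vals_comp_perm (fun k => (FF f k, FF f (W w k))) (W w)]
    congr 1
    funext k
    simp only [Function.comp, Prod.swap]
    rw [hc.inv]
  · unfold pairs
    rw [map_vals]
    rw [← vals_comp_perm (fun k => (FF f k, FF f (W w k))) Fin.revPerm]
    congr 1
    funext k
    simp only [Function.comp, ng, Fin.revPerm_apply]
    rw [W_rev, FF_rev, FF_rev]

theorem exists_signed {n : ℕ} {S : Multiset (ℤ × ℤ)} (hS : Sy S) (hc : S.card = 2 * n) :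
    ∃ (w : Equiv.Perm (Fin n) × (Fin n → Bool)) (f : Fin n → ℕ), IsInv w ∧ CC w f ∧
      pairs (W w) (FF f) = S := by
  obtain ⟨w', F', hcomp, hp⟩ := exists_comp S hS.sw hc
  set w'' : Equiv.Perm (Fin (2 * n)) := (Fin.revPerm.trans w').trans Fin.revPerm with hw''
  set F'' : Fin (2 * n) → ℤ := fun k => - F' k.rev with hF''
  have hwa : ∀ k, w'' k = (w' k.rev).rev := fun k => rfl
  have hcomp2 : Comp w'' F'' := by
    refine ⟨?_, ?_, ?_⟩
    · intro k
      rw [hwa, hwa, Fin.rev_rev, hcomp.inv, Fin.rev_rev]
    · intro k l hkl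
      have := hcomp.mono (Fin.rev_le_rev.2 hkl)
      simp only [hF'']
      linarith
    · intro k l hkl he
      rw [hwa, hwa, Fin.rev_lt_rev]
      apply hcomp.incr
      · exact Fin.rev_lt_rev.2 hkl
      · simp only [hF''] at he
        linarith
  have hp2 : pairs w'' F'' = pairs w' F' := by
    have e1 : pairs w'' F'' = (pairs w' F').map ng := by
      unfold pairs
      rw [map_vals, ← vals_comp_perm (ng ∘ fun k => (F' k, F' (w' k))) Fin.revPerm]
      congr 1
      funext k
      simp only [Function.comp, ng, Fin.revPerm_apply, hwa, Fin.rev_rev, hF'']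
    rw [e1, hp, hS.ne]
  obtain ⟨e1, e2⟩ := hcomp2.inj hcomp hp2
  have hwodd : ∀ k, w' k.rev = (w' k).rev := by
    intro k
    have := congrArg (fun u => u k) e1
    simp only [hwa] at this
    rw [← this, Fin.rev_rev]
  have hFodd : ∀ k, F' k.rev = - F' k := by
    intro k
    have := congrFun e2 k
    simp only [hF''] at this
    linarith
  obtain ⟨w, f, h1, h2, h3, h4⟩ := of_comp hcomp hwodd hFodd
  refine ⟨w, f, h1, h2, ?_⟩
  rw [h3, h4, hp]

open Classical in
/-- The pairs of a signed involution and a compatible labelling by `0, ..., m`. -/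
noncomputable def AA (n m : ℕ) :
    Finset ((Equiv.Perm (Fin n) × (Fin n → Bool)) × (Fin n → Fin (m + 1))) :=
  Finset.univ.filter fun x => IsInv x.1 ∧ CC x.1 (fun i => (x.2 i : ℕ))

theorem card_LL (n m : ℕ) : ((LL n m).card : ℤ) = aa (2 * m + 1) (m ^ 2) n := by
  rw [← card_R1 m, ← card_R2 m]
  exact aa_count (R1 m) (R2 m) (disj m) n

theorem card_AA (n m : ℕ) : ((AA n m).card : ℤ) = aa (2 * m + 1) (m ^ 2) n := by
  rw [← card_LL]
  classical
  rw [Nat.cast_inj]
  set P : (Equiv.Perm (Fin n) × (Fin n → Bool)) × (Fin n → Fin (m + 1)) → Multiset (ℤ × ℤ) :=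
    fun x => pairs (W x.1) (FF fun i => (x.2 i : ℕ)) with hP
  have hinj : Set.InjOn P (AA n m : Set _) := by
    intro x hx y hy hxy
    rw [Finset.mem_coe] at hx hy
    unfold AA at hx hy
    rw [Finset.mem_filter] at hx hy
    obtain ⟨e1, e2⟩ := (comp_of hx.2.1 hx.2.2).inj (comp_of hy.2.1 hy.2.2) hxy
    have e3 := W_inj e1
    have e4 := FF_inj e2
    apply Prod.ext e3
    funext i
    have := congrFun e4 i
    exact Fin.ext this
  rw [← Finset.card_image_of_injOn hinj, ← Finset.card_image_of_injOn (SS_inj (n := n) (m := m))]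
  suffices himg : (AA n m).image P = (LL n m).image (SS m) by rw [himg]
  ext S
  rw [Finset.mem_image, Finset.mem_image]
  constructor
  · rintro ⟨x, hx, rfl⟩
    unfold AA at hx
    rw [Finset.mem_filter] at hx
    apply exists_LL (Sy_pairs hx.2.1 hx.2.2)
    · exact card_vals _
    · intro y hy
      change y ∈ pairs (W x.1) (FF fun i => (x.2 i : ℕ)) at hy
      unfold pairs vals at hy
      rw [Multiset.mem_map] at hy
      obtain ⟨k, _, rfl⟩ := hy
      obtain ⟨⟨i, b⟩, rfl⟩ := (EE n).surjective k
      show |FF (fun i => (x.2 i : ℕ)) (E n (i, b))| ≤ (m : ℤ)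
      rw [FF_E, abs_le]
      have := (x.2 i).isLt
      cases b <;> simp only [Bool.false_eq_true, if_false, if_true] <;> omega
  · rintro ⟨l, hl, rfl⟩
    obtain ⟨w, f, h1, h2, h3⟩ := exists_signed (Sy_SS m l) (card_SS hl)
    have hb : ∀ i, f i < m + 1 := by
      intro i
      have hmem : (FF f (E n (i, false)), FF f (W w (E n (i, false)))) ∈ SS m l := by
        rw [← h3]
        unfold pairs vals
        rw [Multiset.mem_map]
        exact ⟨E n (i, false), Finset.mem_univ_val _, rfl⟩
      have := SS_bound hmem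
      rw [FF_E] at this
      simp only [Bool.false_eq_true, if_false] at this
      rw [abs_le] at this
      omega
    refine ⟨(w, fun i => ⟨f i, hb i⟩), ?_, ?_⟩
    · unfold AA
      rw [Finset.mem_filter]
      exact ⟨Finset.mem_univ _, h1, h2⟩
    · exact h3

end Pool.Agent.TH429.GI
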