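import Pool.Agent.TH429.GI.Eul

/-!
# The recurrence for the descent polynomials of signed involutions
-/

set_option autoImplicit false

namespace Pool.Agent.TH429.GI

open Finset

/-- The signed involutions. -/
def SI (n : ℕ) : Finset (Equiv.Perm (Fin n) × (Fin n → Bool)) :=
  (Finset.univ : Finset (Equiv.Perm (Fin n) × (Fin n → Bool))).filter
    (fun w => ∀ i : Fin n, w.1 (w.1 i) = i ∧ w.2 (w.1 i) = w.2 i)

theorem mem_SI {n : ℕ} (w : Equiv.Perm (Fin n) × (Fin n → Bool)) : w ∈ SI n ↔ IsInv w := by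
  unfold SI
  rw [Finset.mem_filter]
  exact ⟨fun h => h.2, fun h => ⟨Finset.mem_univ _, h⟩⟩

/-- The descent polynomial. -/
noncomputable def PP (n : ℕ) : Polynomial ℤ :=
  ∑ w ∈ SI n, (Polynomial.X : Polynomial ℤ) ^ (∑ k ∈ Finset.range n, dd w k)

/-- The generating function of the counts. -/
noncomputable def As (n : ℕ) : PowerSeries ℤ := PowerSeries.mk fun m => aa (2 * m + 1) (m ^ 2) n

theorem As_eq (n : ℕ) : As n = (PP n : PowerSeries ℤ) * geo1 ^ (n + 1) := by
  unfold As PP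
  rw [main_series n (SI n) mem_SI]
  congr 1
  rw [← Polynomial.coeToPowerSeries.ringHom_apply, map_sum]
  apply Finset.sum_congr rfl
  intro w _
  rw [Polynomial.coeToPowerSeries.ringHom_apply, Polynomial.coe_pow, Polynomial.coe_X]

theorem coeZ (z : ℤ) : ((z : Polynomial ℤ) : PowerSeries ℤ) = (z : PowerSeries ℤ) :=
  map_intCast (Polynomial.coeToPowerSeries.ringHom (R := ℤ)) z

theorem coeN (z : ℕ) : ((z : Polynomial ℤ) : PowerSeries ℤ) = (z : PowerSeries ℤ) :=
  map_natCast (Polynomial.coeToPowerSeries.ringHom (R := ℤ)) z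

theorem coe2 : ((2 : Polynomial ℤ) : PowerSeries ℤ) = 2 :=
  map_ofNat (Polynomial.coeToPowerSeries.ringHom (R := ℤ)) 2

/-- The operator `2 θ + 1`. -/
noncomputable def th (f : PowerSeries ℤ) : PowerSeries ℤ :=
  2 * (PowerSeries.X * PowerSeries.derivative ℤ f) + f

theorem coeff_th (f : PowerSeries ℤ) (m : ℕ) :
    PowerSeries.coeff m (th f) = (2 * m + 1) * PowerSeries.coeff m f := by
  unfold th
  have h2 : (2 : PowerSeries ℤ) = PowerSeries.C (2 : ℤ) := (map_ofNat _ 2).symm
  rw [map_add, h2, PowerSeries.coeff_C_mul]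
  cases m with
  | zero =>
    rw [PowerSeries.coeff_zero_X_mul]
    simp
  | succ m =>
    rw [PowerSeries.coeff_succ_X_mul, PowerSeries.coeff_derivative]
    push_cast
    ring

theorem As_rec (n : ℕ) :
    ((2 * (n : ℤ) + 4 : ℤ) : PowerSeries ℤ) * As (n + 2) =
      2 * th (As (n + 1)) + th (th (As n)) + ((2 * (n : ℤ) + 1 : ℤ) : PowerSeries ℤ) * As n := by
  have h2 : (2 : PowerSeries ℤ) = PowerSeries.C (2 : ℤ) := (map_ofNat _ 2).symm
  have hc : ∀ z : ℤ, (z : PowerSeries ℤ) = PowerSeries.C z := fun z => (map_intCast _ z).symm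
  ext m
  rw [hc, hc, h2, (PowerSeries.coeff m).map_add, (PowerSeries.coeff m).map_add,
    PowerSeries.coeff_C_mul, PowerSeries.coeff_C_mul,
    PowerSeries.coeff_C_mul, coeff_th, coeff_th, coeff_th]
  unfold As
  rw [PowerSeries.coeff_mk, PowerSeries.coeff_mk, PowerSeries.coeff_mk]
  have := aa_rec (2 * m + 1) (m ^ 2) n
  push_cast at this
  linear_combination 2 * this

theorem As_zero : As 0 = geo1 := by
  ext m
  unfold As geo1
  rw [PowerSeries.coeff_mk, PowerSeries.coeff_mk, aa_zero]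

theorem As_one : As 1 = th (As 0) := by
  ext m
  rw [coeff_th]
  unfold As
  rw [PowerSeries.coeff_mk, PowerSeries.coeff_mk, aa_zero, aa_one]
  push_cast
  ring

/-- The operator on polynomials. -/
noncomputable def TT {R : Type*} [CommRing R] (k : ℕ) (Q : Polynomial R) : Polynomial R :=
  2 * Polynomial.X * ((1 - Polynomial.X) * Polynomial.derivative Q + (k : Polynomial R) * Q) +
    (1 - Polynomial.X) * Q

theorem d_geo1_pow (p : ℕ) : PowerSeries.derivative ℤ (geo1 ^ p) =
    (p : PowerSeries ℤ) * geo1 ^ (p + 1) := by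
  induction p with
  | zero =>
    simp only [pow_zero, Nat.cast_zero, zero_mul]
    exact (PowerSeries.derivative ℤ).map_one_eq_zero
  | succ p ih =>
    rw [pow_succ, Derivation.leibniz, ih, d_geo1]
    simp only [smul_eq_mul]
    push_cast
    ring

theorem th_mul (k : ℕ) (Q : Polynomial ℤ) :
    th ((Q : PowerSeries ℤ) * geo1 ^ k) = (TT k Q : PowerSeries ℤ) * geo1 ^ (k + 1) := by
  unfold th TT
  rw [Derivation.leibniz, d_geo1_pow, PowerSeries.derivative_coe]
  simp only [smul_eq_mul, Polynomial.coe_add, Polynomial.coe_mul, Polynomial.coe_sub,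
    Polynomial.coe_one, Polynomial.coe_X, coe2, coeN]
  have h := geo1_mul
  rw [pow_succ]
  linear_combination (-(2 * PowerSeries.X * (Polynomial.derivative Q : PowerSeries ℤ) *
    geo1 ^ k) - (Q : PowerSeries ℤ) * geo1 ^ k) * h

theorem geo1_pow_cancel {k : ℕ} {f g : PowerSeries ℤ} (h : f * geo1 ^ k = g * geo1 ^ k) :
    f = g := by
  have h1 : (geo1 * (1 - PowerSeries.X)) ^ k = 1 := by
    rw [mul_comm, geo1_mul, one_pow]
  have h2 : f * geo1 ^ k * (1 - PowerSeries.X) ^ k = g * geo1 ^ k * (1 - PowerSeries.X) ^ k := by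
    rw [h]
  rw [mul_assoc, mul_assoc, ← mul_pow, h1, mul_one, mul_one] at h2
  exact h2

theorem PP_rec (n : ℕ) :
    ((2 * (n : ℤ) + 4 : ℤ) : Polynomial ℤ) * PP (n + 2) =
      2 * TT (n + 2) (PP (n + 1)) + TT (n + 2) (TT (n + 1) (PP n)) +
        ((2 * (n : ℤ) + 1 : ℤ) : Polynomial ℤ) * ((1 - Polynomial.X) ^ 2 * PP n) := by
  have h := As_rec n
  rw [As_eq, As_eq, As_eq, th_mul, th_mul, th_mul] at h
  apply Polynomial.coe_injective
  apply geo1_pow_cancel (k := n + 3)
  simp only [Polynomial.coe_add, Polynomial.coe_mul, Polynomial.coe_sub,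
    Polynomial.coe_one, Polynomial.coe_X, coe2, coeZ, Polynomial.coe_pow]
  have e1 : n + 2 + 1 = n + 3 := rfl
  have e2 : n + 1 + 1 + 1 = n + 3 := rfl
  rw [e1, e2] at h
  have h3 : (geo1 : PowerSeries ℤ) ^ (n + 3) = geo1 ^ (n + 1) * geo1 ^ 2 := by
    rw [← pow_add]
  have h4 := geo1_mul
  rw [mul_assoc, h]
  rw [h3]
  have h5 : (1 - PowerSeries.X) ^ 2 * geo1 ^ 2 = (1 : PowerSeries ℤ) := by
    rw [← mul_pow, h4, one_pow]
  linear_combination (-((2 * (n : ℤ) + 1 : ℤ) : PowerSeries ℤ) * (PP n : PowerSeries ℤ) *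
    geo1 ^ (n + 1)) * h5

theorem PP_zero : PP 0 = 1 := by
  have h := As_eq 0
  rw [As_zero, zero_add, pow_one] at h
  apply Polynomial.coe_injective
  apply geo1_pow_cancel (k := 1)
  rw [pow_one, ← h, Polynomial.coe_one, one_mul]

theorem PP_one : PP 1 = 1 + Polynomial.X := by
  have h := As_eq 1
  rw [As_one, As_eq 0, th_mul, PP_zero] at h
  apply Polynomial.coe_injective
  apply geo1_pow_cancel (k := 2)
  have e3 : TT (0 + 1) (1 : Polynomial ℤ) = 1 + Polynomial.X := by
    unfold TT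
    rw [Polynomial.derivative_one]
    push_cast
    ring
  rw [e3] at h
  exact h.symm

end Pool.Agent.TH429.GI
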