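import Mathlib

/-!
# Sorted sequences and involutions

Monotone sequences are determined by their multisets of values; an involution of `Fin N` together
with a monotone labelling whose fibres are mapped increasingly is determined by the symmetric
multiset of the pairs (label of `k`, label of `w k`), and all symmetric multisets occur.
-/

set_option autoImplicit false

namespace Pool.Agent.TH429.GI

theorem papply {α : Type*} (w : Equiv.Perm α) (k : α) : w (w⁻¹ k) = k := (Equiv.eq_symm_apply w).mp rfl

/-- The multiset of the values of a sequence. -/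
def vals {N : ℕ} {α : Type*} (p : Fin N → α) : Multiset α := Multiset.map p Finset.univ.val

theorem vals_eq {N : ℕ} {α : Type*} (p : Fin N → α) : vals p = (List.ofFn p : Multiset α) := by
  unfold vals
  rw [List.ofFn_eq_map]
  rw [← Multiset.map_coe]
  rfl

theorem card_vals {N : ℕ} {α : Type*} (p : Fin N → α) : (vals p).card = N := by
  simp [vals]

theorem vals_comp_perm {N : ℕ} {α : Type*} (p : Fin N → α) (w : Equiv.Perm (Fin N)) :
    vals (p ∘ w) = vals p := by
  unfold vals
  rw [← Multiset.map_map]
  congr 1
  have := Finset.map_univ_equiv w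
  have h2 := congrArg Finset.val this
  simpa using h2

theorem map_vals {N : ℕ} {α β : Type*} (p : Fin N → α) (g : α → β) :
    (vals p).map g = vals (g ∘ p) := by
  unfold vals
  rw [Multiset.map_map]

theorem mono_unique {α : Type*} [LinearOrder α] {N : ℕ} {p q : Fin N → α} (hp : Monotone p)
    (hq : Monotone q) (h : vals p = vals q) : p = q := by
  rw [vals_eq, vals_eq, Multiset.coe_eq_coe] at h
  have h1 : (List.ofFn p).SortedLE := by
    rw [List.sortedLE_ofFn_iff]; exact hp
  have h2 : (List.ofFn q).SortedLE := by
    rw [List.sortedLE_ofFn_iff]; exact hq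
  exact List.ofFn_injective (List.Perm.eq_of_sortedLE h1 h2 h)

theorem mono_exists {α : Type*} [LinearOrder α] (S : Multiset α) {N : ℕ} (h : S.card = N) :
    ∃ p : Fin N → α, Monotone p ∧ vals p = S := by
  subst h
  have hl : (S.sort (· ≤ ·)).length = S.card := Multiset.length_sort ..
  refine ⟨fun i => (S.sort (· ≤ ·)).get (Fin.cast hl.symm i), ?_, ?_⟩
  · intro i j hij
    have := (Multiset.pairwise_sort S (· ≤ ·))
    exact this.rel_get_of_le (show Fin.cast hl.symm i ≤ Fin.cast hl.symm j from hij)
  · rw [vals_eq]
    have : List.ofFn (fun i => (S.sort (· ≤ ·)).get (Fin.cast hl.symm i)) = S.sort (· ≤ ·) := by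
      apply List.ext_get
      · simp
      · intro n h1 h2
        simp
    rw [this, Multiset.sort_eq]

/-- `w` is an involution, `F` is monotone and `w` increases on the fibres of `F`. -/
structure Comp {N : ℕ} {α : Type*} [LinearOrder α] (w : Equiv.Perm (Fin N)) (F : Fin N → α) :
    Prop where
  inv : ∀ k, w (w k) = k
  mono : Monotone F
  incr : ∀ i j, i < j → F i = F j → w i < w j

/-- The multiset of the pairs of labels. -/
def pairs {N : ℕ} {α : Type*} (w : Equiv.Perm (Fin N)) (F : Fin N → α) : Multiset (α × α) :=
  vals (fun k => (F k, F (w k)))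

variable {N : ℕ} {α : Type*} [LinearOrder α]

theorem Comp.lex {w : Equiv.Perm (Fin N)} {F : Fin N → α} (h : Comp w F) :
    Monotone (fun k => (toLex (F k, F (w k)) : α ×ₗ α)) := by
  intro i j hij
  rw [Prod.Lex.toLex_le_toLex]
  rcases eq_or_lt_of_le hij with rfl | hlt
  · right; simp
  · rcases eq_or_lt_of_le (h.mono hij) with he | hl
    · right
      exact ⟨he, h.mono (le_of_lt (h.incr i j hlt he))⟩
    · left; exact hl

theorem Comp.sort {w : Equiv.Perm (Fin N)} {F : Fin N → α} (h : Comp w F) :
    w = Tuple.sort (fun k => F (w k)) := by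
  rw [Tuple.eq_sort_iff]
  constructor
  · intro i j hij
    simp only [Function.comp]
    rw [h.inv, h.inv]
    exact h.mono hij
  · intro i j hij he
    rw [h.inv, h.inv] at he
    exact h.incr i j hij he

theorem Comp.inj {w w' : Equiv.Perm (Fin N)} {F F' : Fin N → α} (h : Comp w F) (h' : Comp w' F')
    (e : pairs w F = pairs w' F') : w = w' ∧ F = F' := by
  have e1 : (fun k => (toLex (F k, F (w k)) : α ×ₗ α)) =
      fun k => (toLex (F' k, F' (w' k)) : α ×ₗ α) := by
    apply mono_unique h.lex h'.lex
    have := congrArg (Multiset.map (toLex : α × α → α ×ₗ α)) e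
    unfold pairs at this
    rw [map_vals, map_vals] at this
    exact this
  have e2 : ∀ k, F k = F' k ∧ F (w k) = F' (w' k) := by
    intro k
    have := congrFun e1 k
    simpa [Prod.ext_iff] using this
  have e3 : F = F' := funext fun k => (e2 k).1
  refine ⟨?_, e3⟩
  have e4 : (fun k => F (w k)) = fun k => F' (w' k) := funext fun k => (e2 k).2
  rw [h.sort, h'.sort, e4]

theorem exists_comp (S : Multiset (α × α)) (hS : S.map Prod.swap = S) (hc : S.card = N) :
    ∃ (w : Equiv.Perm (Fin N)) (F : Fin N → α), Comp w F ∧ pairs w F = S := by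
  obtain ⟨p, hp, hv⟩ := mono_exists (S.map (toLex : α × α → α ×ₗ α)) (N := N) (by simpa using hc)
  set a : Fin N → α := fun k => (ofLex (p k)).1 with ha
  set b : Fin N → α := fun k => (ofLex (p k)).2 with hb
  have hpab : ∀ k, p k = toLex (a k, b k) := fun k => rfl
  have hlex : ∀ i j, i ≤ j → a i < a j ∨ a i = a j ∧ b i ≤ b j := by
    intro i j hij
    have := hp hij
    rw [hpab, hpab, Prod.Lex.toLex_le_toLex] at this
    exact this
  have ha_mono : Monotone a := by
    intro i j hij
    rcases hlex i j hij with h | h
    · exact h.le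
    · exact h.1.le
  have hSab : vals (fun k => (a k, b k)) = S := by
    have := congrArg (Multiset.map (ofLex : α ×ₗ α → α × α)) hv
    rw [map_vals, Multiset.map_map] at this
    have h2 : Multiset.map ((ofLex : α ×ₗ α → α × α) ∘ (toLex : α × α → α ×ₗ α)) S = S := by
      have : ((ofLex : α ×ₗ α → α × α) ∘ (toLex : α × α → α ×ₗ α)) = id := rfl
      rw [this, Multiset.map_id]
    rw [h2] at this
    exact this
  set w : Equiv.Perm (Fin N) := Tuple.sort b with hw
  obtain ⟨hm, ht⟩ := (Tuple.eq_sort_iff (f := b) (σ := w)).1 hw
  -- the transposed pairs, sorted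
  have hlex2 : Monotone (fun k => (toLex (b (w k), a (w k)) : α ×ₗ α)) := by
    intro i j hij
    rw [Prod.Lex.toLex_le_toLex]
    rcases eq_or_lt_of_le hij with rfl | hlt
    · right; simp
    · rcases eq_or_lt_of_le (hm hij) with he | hl
      · right
        exact ⟨he, ha_mono (ht i j hlt he).le⟩
      · left; exact hl
  have hq : (fun k => (toLex (b (w k), a (w k)) : α ×ₗ α)) = p := by
    apply mono_unique hlex2 hp
    rw [hv]
    have h1 : vals (fun k => (toLex (b (w k), a (w k)) : α ×ₗ α)) =
        vals (fun k => (toLex (b k, a k) : α ×ₗ α)) :=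
      vals_comp_perm (fun k => (toLex (b k, a k) : α ×ₗ α)) w
    rw [h1]
    have h2 : vals (fun k => (toLex (b k, a k) : α ×ₗ α)) =
        (vals (fun k => (a k, b k))).map (fun x => (toLex (Prod.swap x) : α ×ₗ α)) := by
      rw [map_vals]; rfl
    rw [h2, hSab]
    conv_rhs => rw [← hS]
    rw [Multiset.map_map]
    rfl
  have hbw : ∀ k, b (w k) = a k := by
    intro k
    have := congrFun hq k
    have h3 := congrArg (fun x => (ofLex x).1) this
    exact h3
  have haw : ∀ k, a (w k) = b k := by
    intro k
    have := congrFun hq k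
    have h3 := congrArg (fun x => (ofLex x).2) this
    exact h3
  -- w is an involution
  have hinv : w⁻¹ = w := by
    rw [hw, Tuple.eq_sort_iff]
    have e1 : ∀ k, b (w⁻¹ k) = a k := by
      intro k
      have := haw (w⁻¹ k)
      rw [papply] at this
      exact this.symm
    constructor
    · intro i j hij
      simp only [Function.comp]
      rw [← hw, e1, e1]
      exact ha_mono hij
    · intro i j hij he
      rw [← hw] at he ⊢
      rw [e1, e1] at he
      have e2 : ∀ k, a (w⁻¹ k) = b k := by
        intro k
        have := hbw (w⁻¹ k)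
        rw [papply] at this
        exact this.symm
      by_contra hcon
      rw [not_lt] at hcon
      have hne : w⁻¹ j ≠ w⁻¹ i := fun h => (ne_of_lt hij) (w⁻¹.injective h).symm
      have hlt : w⁻¹ j < w⁻¹ i := lt_of_le_of_ne hcon hne
      have h5 := ha_mono hlt.le
      rw [e2, e2] at h5
      have h6 : b i ≤ b j := by
        rcases hlex i j hij.le with h | h
        · exact absurd he h.ne
        · exact h.2
      have h7 : b (w (w⁻¹ j)) = b (w (w⁻¹ i)) := by
        rw [papply, papply]
        exact le_antisymm h5 h6
      have h8 := ht _ _ hlt h7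
      rw [papply, papply] at h8
      exact absurd hij (not_lt.2 h8.le)
  refine ⟨w, a, ⟨?_, ha_mono, ?_⟩, ?_⟩
  · intro k
    have : w (w⁻¹ k) = k := papply w k
    rwa [hinv] at this
  · intro i j hij he
    have h1 : b (w i) = b (w j) := by rw [hbw, hbw]; exact he
    exact ht i j hij h1
  · unfold pairs
    rw [← hSab]
    congr 1
    funext k
    rw [haw]

end Pool.Agent.TH429.GI
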